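import Pool.Agent.H.MP_0ec261_nt.Jac

/-!
# Sums of a Jacobi symbol over odd moduli, even numerators included
-/

namespace Pool.Agent.H.MP_0ec261_nt.SP

open Finset NumberTheorySymbols

private theorem Ea_key {e D' : ℕ} (hD' : Odd D') (a c : ℕ) (hc : c = 1 ∨ c = 5) :
    ∃ m : ℕ, Odd m ∧ J(((2 ^ e * D' : ℕ) : ℤ) | m) =
      (if c = 1 then (1 : ℤ) else -1) ^ e * J((a : ℤ) | D') := by
  have hcop : Nat.Coprime D' 8 := by
    rw [show (8 : ℕ) = 2 ^ 3 by norm_num]
    exact Nat.Coprime.pow_right 3 (Nat.coprime_two_right.2 hD')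
  obtain ⟨m, hm1, hm2⟩ := Nat.chineseRemainder hcop a c
  have h8 : m % 8 = c := by
    have h := hm2
    unfold Nat.ModEq at h
    rcases hc with rfl | rfl <;> omega
  have hodd : Odd m := by
    rw [Nat.odd_iff]
    rcases hc with rfl | rfl <;> omega
  have h4 : m % 4 = 1 := by rcases hc with rfl | rfl <;> omega
  have h2 : J((2 : ℤ) | m) = if c = 1 then (1 : ℤ) else -1 := by
    rw [jacobiSym.at_two hodd, ZMod.χ₈_nat_mod_eight, h8]
    rcases hc with rfl | rfl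
    · rfl
    · rfl
  have h3 : J((D' : ℤ) | m) = J((a : ℤ) | D') := by
    rw [jacobiSym.quadratic_reciprocity_one_mod_four' hD' h4]
    apply jacobiSym.mod_left'
    exact_mod_cast hm1
  refine ⟨m, hodd, ?_⟩
  rw [Nat.cast_mul, jacobiSym.mul_left, Nat.cast_pow, jacobiSym.pow_left, Nat.cast_two, h2, h3]

theorem exists_neg_all {D : ℕ} (hD : 0 < D) (hsq : ¬ IsSquare D) :
    ∃ m : ℕ, Odd m ∧ J((D : ℤ) | m) = -1 := by
  obtain ⟨e, D', hD', rfl⟩ := Nat.exists_eq_two_pow_mul_odd hD.ne'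
  by_cases h : IsSquare D'
  · obtain ⟨b, rfl⟩ := h
    have he : Odd e := by
      rw [← Nat.not_even_iff_odd]
      rintro ⟨f, rfl⟩
      exact hsq ⟨2 ^ f * b, by ring⟩
    obtain ⟨m, hm, h1⟩ := Ea_key (e := e) hD' 1 5 (Or.inr rfl)
    refine ⟨m, hm, ?_⟩
    rw [h1, if_neg (by norm_num), he.neg_one_pow, Nat.cast_one, jacobiSym.one_left, mul_one]
  · obtain ⟨a, ha⟩ := exists_neg hD' h
    obtain ⟨m, hm, h1⟩ := Ea_key (e := e) hD' a 1 (Or.inl rfl)
    refine ⟨m, hm, ?_⟩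
    rw [h1, if_pos rfl, one_pow, one_mul, ha]

private theorem Ea_per (D i : ℕ) :
    J((D : ℤ) | 2 * (i + 2 * D) + 1) = J((D : ℤ) | 2 * i + 1) := by
  rw [jacobiSym.mod_right' D (b := 2 * (i + 2 * D) + 1) ⟨_, rfl⟩,
    jacobiSym.mod_right' D (b := 2 * i + 1) ⟨_, rfl⟩]
  congr 1
  have h : 2 * (i + 2 * D) + 1 = (2 * i + 1) + (4 * D) * 1 := by ring
  rw [h, Nat.add_mul_mod_self_left]

private theorem Ea_zmod (f : ℕ → ℤ) {P : ℕ} [NeZero P] :
    ∑ x ∈ range P, f x = ∑ z : ZMod P, f z.val := by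
  rw [← Fin.sum_univ_eq_sum_range f P]
  symm
  apply Fintype.sum_bijective (fun z : ZMod P => (⟨z.val, ZMod.val_lt z⟩ : Fin P))
  · constructor
    · intro z w hzw
      simp only [Fin.mk.injEq] at hzw
      exact ZMod.val_injective P hzw
    · intro i
      refine ⟨(i.val : ZMod P), ?_⟩
      ext
      simp only
      rw [ZMod.val_natCast, Nat.mod_eq_of_lt i.2]
  · intro z
    rfl

private theorem Ea_zero {f : ℕ → ℤ} {P m k : ℕ} (hP : 0 < P) (hf : ∀ x, f (x + P) = f x)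
    (hm : Nat.Coprime m P) (hneg : ∀ x, f (m * x + k) = - f x) :
    ∑ x ∈ range P, f x = 0 := by
  have : NeZero P := ⟨hP.ne'⟩
  have hu : IsUnit ((m : ℕ) : ZMod P) := (ZMod.isUnit_iff_coprime m P).2 hm
  obtain ⟨u, hu'⟩ := hu
  have hmod : ∀ x, f (x % P) = f x := Function.Periodic.map_mod_nat (f := f) hf
  have h2 : ∑ z : ZMod P, f z.val = ∑ z : ZMod P, f (((u : ZMod P) * z + (k : ZMod P)).val) := by
    symm
    exact Equiv.sum_comp ((Units.mulLeft u).trans (Equiv.addRight (k : ZMod P)))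
      (fun z => f z.val)
  have h3 : ∀ z : ZMod P, f (((u : ZMod P) * z + (k : ZMod P)).val) = - f z.val := by
    intro z
    have h4 : (u : ZMod P) * z + (k : ZMod P) = ((m * z.val + k : ℕ) : ZMod P) := by
      rw [hu']
      push_cast
      rw [ZMod.natCast_zmod_val]
    rw [h4, ZMod.val_natCast, hmod, hneg]
  rw [Ea_zmod]
  have h4 : ∑ z : ZMod P, f z.val = - ∑ z : ZMod P, f z.val := by
    conv_lhs => rw [h2]
    rw [← sum_neg_distrib]
    exact sum_congr rfl (fun z _ => h3 z)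
  omega

theorem sum_all {D : ℕ} (hD : 0 < D) (hsq : ¬ IsSquare D) (X : ℕ) :
    |∑ i ∈ range X, J((D : ℤ) | 2 * i + 1)| ≤ 2 * D := by
  obtain ⟨m, hm, hJ⟩ := exists_neg_all hD hsq
  have hm0 : m ≠ 0 := hm.pos.ne'
  have hcD : Nat.Coprime m D := by
    by_contra h
    have : NeZero m := ⟨hm0⟩
    have h1 : J((D : ℤ) | m) = 0 := by
      rw [jacobiSym.eq_zero_iff_not_coprime, Int.gcd_natCast_natCast]
      exact fun h2 => h (Nat.coprime_comm.1 h2)
    rw [hJ] at h1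
    norm_num at h1
  have hc : Nat.Coprime m (2 * D) := Nat.Coprime.mul_right (Nat.coprime_two_right.2 hm) hcD
  obtain ⟨k, hk⟩ := hm
  have h0 : ∑ i ∈ range (2 * D), J((D : ℤ) | 2 * i + 1) = 0 := by
    refine Ea_zero (f := fun i => J((D : ℤ) | 2 * i + 1)) (k := k) (by omega)
      (fun x => Ea_per D x) hc fun x => ?_
    have h1 : 2 * (m * x + k) + 1 = m * (2 * x + 1) := by
      rw [hk]
      ring
    show J((D : ℤ) | 2 * (m * x + k) + 1) = - J((D : ℤ) | 2 * x + 1)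
    rw [h1, jacobiSym.mul_right' _ hm0 (by omega), hJ]
    ring
  have h := sum_range_le (f := fun i => J((D : ℤ) | 2 * i + 1)) (D := 2 * D) (by omega)
    (fun x => Ea_per D x) (fun x => abs_jac_le _ _) h0 0 X
  simp only [zero_add] at h
  push_cast at h
  exact h

end Pool.Agent.H.MP_0ec261_nt.SP
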