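import Pool.Agent.H.MP_0ec261_nt.SP.Eb

/-!
# The number of pairs with symbol one, general numerators
-/

namespace Pool.Agent.H.MP_0ec261_nt.SP

open Finset NumberTheorySymbols

private theorem Ec_val {p k : ℕ} (hp : p.Prime) (hk : 1 ≤ k) (hkp : k < p) :
    J((k : ℤ) | p + 2 * k) = 1 ∨ J((k : ℤ) | p + 2 * k) = -1 := by
  rcases jacobiSym.trichotomy (k : ℤ) (p + 2 * k) with h | h | h
  · exfalso
    have : NeZero (p + 2 * k) := ⟨by have := hp.pos; omega⟩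
    rw [jacobiSym.eq_zero_iff_not_coprime, Int.gcd_natCast_natCast] at h
    apply h
    have h1 : Nat.Coprime k p := (Nat.coprime_of_lt_prime (by omega) hkp hp).symm
    have h2 : Nat.Coprime k (p + 2 * k) := by
      rw [Nat.coprime_add_mul_right_right]
      exact h1
    exact h2
  · exact Or.inl h
  · exact Or.inr h

private theorem Ec_sum_le {P : Finset ℕ} {X : ℕ} {A : ℕ → ℝ}
    (hP : ∀ p ∈ P, p.Prime ∧ p ≠ 2 ∧ p < 2 * X) :
    ∑ p ∈ P, (A p) ^ 2 ≤ ∑ i ∈ range X, (A (2 * i + 1)) ^ 2 := by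
  have h1 : P ⊆ (range X).image (fun i => 2 * i + 1) := by
    intro p hp
    obtain ⟨h2, h3, h4⟩ := hP p hp
    obtain ⟨k, hk⟩ := h2.odd_of_ne_two h3
    rw [mem_image]
    exact ⟨k, mem_range.2 (by omega), hk.symm⟩
  calc ∑ p ∈ P, (A p) ^ 2 ≤ ∑ p ∈ (range X).image (fun i => 2 * i + 1), (A p) ^ 2 :=
        sum_le_sum_of_subset_of_nonneg h1 (fun _ _ _ => sq_nonneg _)
    _ = ∑ i ∈ range X, (A (2 * i + 1)) ^ 2 := by
        rw [sum_image]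
        intro a _ b _ hab
        have : 2 * a + 1 = 2 * b + 1 := hab
        omega

open Classical in
theorem first_all {K P : Finset ℕ} {X y B : ℕ} (hK : ∀ k ∈ K, 1 ≤ k ∧ k ≤ y)
    (hB : ∀ k ∈ K, (K.filter fun j => IsSquare (k * j)).card ≤ B)
    (hP : ∀ p ∈ P, p.Prime ∧ p ≠ 2 ∧ y < p ∧ p < 2 * X)
    (h : 4 * (X * (B * K.card) + 2 * (y : ℝ) ^ 2 * (K.card : ℝ) ^ 2) ≤
      P.card * (K.card : ℝ) ^ 2) :
    (P.card : ℝ) * K.card / 4 ≤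
      (((P ×ˢ K).filter fun x => J((x.2 : ℤ) | x.1 + 2 * x.2) = 1).card : ℝ) := by
  set s : ℕ → ℝ := fun q => (J((q : ℤ) | 1 + 2 * q) : ℝ) with hs
  set A : ℕ → ℝ := fun p => ∑ q ∈ K, s q * (J((q : ℤ) | p) : ℝ) with hA
  have hs1 : ∀ q ∈ K, |s q| ≤ 1 := by
    intro q _
    have h1 := abs_jac_le (q : ℤ) (1 + 2 * q)
    have h2 : |(J((q : ℤ) | 1 + 2 * q) : ℝ)| ≤ 1 := by exact_mod_cast h1
    exact h2
  have hms : ∑ i ∈ range X, (A (2 * i + 1)) ^ 2 ≤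
      X * (B * K.card) + 2 * (y : ℝ) ^ 2 * (K.card : ℝ) ^ 2 := meansq_all hK hB hs1 X
  have hle : ∑ p ∈ P, (A p) ^ 2 ≤ ∑ i ∈ range X, (A (2 * i + 1)) ^ 2 :=
    Ec_sum_le (fun p hp => ⟨(hP p hp).1, (hP p hp).2.1, (hP p hp).2.2.2⟩)
  have hcs : (∑ p ∈ P, A p) ^ 2 ≤ P.card * ∑ p ∈ P, (A p) ^ 2 := sq_sum_le_card_mul_sum_sq
  have hPn : (0 : ℝ) ≤ P.card := Nat.cast_nonneg _
  have hKn : (0 : ℝ) ≤ K.card := Nat.cast_nonneg _
  have hT : (∑ p ∈ P, A p) ^ 2 ≤ ((P.card : ℝ) * K.card / 2) ^ 2 := by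
    have h3 : (P.card : ℝ) * ∑ p ∈ P, (A p) ^ 2 ≤
        P.card * (P.card * (K.card : ℝ) ^ 2 / 4) := by
      apply mul_le_mul_of_nonneg_left _ hPn
      linarith
    calc (∑ p ∈ P, A p) ^ 2 ≤ P.card * (P.card * (K.card : ℝ) ^ 2 / 4) := hcs.trans h3
      _ = ((P.card : ℝ) * K.card / 2) ^ 2 := by ring
  have hT' : -((P.card : ℝ) * K.card / 2) ≤ ∑ p ∈ P, A p :=
    (abs_le.1 (abs_le_of_sq_le_sq hT (by positivity))).1
  have hcard : (((P ×ˢ K).filter fun x => J((x.2 : ℤ) | x.1 + 2 * x.2) = 1).card : ℝ) =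
      ∑ x ∈ P ×ˢ K, (1 + (J((x.2 : ℤ) | x.1 + 2 * x.2) : ℝ)) / 2 := by
    rw [card_filter]
    push_cast
    apply sum_congr rfl
    intro x hx
    rw [mem_product] at hx
    have h4 := (hP x.1 hx.1).2.2.1
    have h5 := hK x.2 hx.2
    rcases Ec_val (hP x.1 hx.1).1 h5.1 (by omega) with h6 | h6
    · rw [h6]; norm_num
    · rw [h6]; norm_num
  have hsum : ∑ x ∈ P ×ˢ K, (J((x.2 : ℤ) | x.1 + 2 * x.2) : ℝ) = ∑ p ∈ P, A p := by
    rw [sum_product]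
    apply sum_congr rfl
    intro p hp
    apply sum_congr rfl
    intro q _
    have h7 : J((q : ℤ) | p + 2 * q) = J((q : ℤ) | 1 + 2 * q) * J((q : ℤ) | p) :=
      jac_shift ((hP p hp).1.odd_of_ne_two (hP p hp).2.1)
    simp only [hs]
    rw [h7]
    push_cast
    ring
  rw [hcard, ← sum_div, sum_add_distrib, hsum, sum_const, card_product, nsmul_eq_mul]
  push_cast
  linarith

end Pool.Agent.H.MP_0ec261_nt.SP
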