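import Pool.Agent.H.MP_711652_nt.PairSieve

/-!
# The pair sieve for all shifts
-/

namespace Pool.Agent.H.MP_0ec261_nt.SP

open Finset Pool.Agent.H.MP_711652_nt

private theorem Se_ev : ∀ᶠ x : ℝ in Filter.atTop, 1 ≤ x ∧ 2 ≤ x ^ ((1 : ℝ) / 14) ∧
    210 * Real.log 2 ≤ Real.log x ∧ 3 * (Real.log x) ^ 2 ≤ x ^ ((1 : ℝ) / 7) := by
  have h1 : ∀ᶠ x : ℝ in Filter.atTop, 2 ≤ x ^ ((1 : ℝ) / 14) :=
    (tendsto_rpow_atTop (by norm_num : (0 : ℝ) < 1 / 14)).eventually_ge_atTop 2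
  have h2 : ∀ᶠ x : ℝ in Filter.atTop, 210 * Real.log 2 ≤ Real.log x :=
    Real.tendsto_log_atTop.eventually_ge_atTop _
  have h3 := (isLittleO_log_rpow_rpow_atTop (2 : ℝ) (by norm_num : (0 : ℝ) < 1 / 7)).bound
    (by norm_num : (0 : ℝ) < 1 / 3)
  filter_upwards [h1, h2, h3, Filter.eventually_ge_atTop (1 : ℝ)] with x a b c d
  refine ⟨d, a, b, ?_⟩
  rw [Real.rpow_two, Real.norm_of_nonneg (sq_nonneg _),
    Real.norm_of_nonneg (Real.rpow_nonneg (by linarith) _)] at c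
  linarith

theorem pairs_le : ∃ C : ℝ, 0 < C ∧ ∃ M₀ : ℕ, ∀ M : ℕ, M₀ ≤ M → ∀ h : ℕ, 1 ≤ h →
    (pairs M h : ℝ) ≤ C * M / (Real.log M) ^ 2 * ∏ p ∈ h.primeFactors, (1 + 6 / (p : ℝ)) := by
  obtain ⟨x₀, hx₀⟩ := Filter.eventually_atTop.1 Se_ev
  refine ⟨226, by norm_num, ⌈x₀⌉₊, fun M hM h hh => ?_⟩
  have hMx : x₀ ≤ (M : ℝ) := (Nat.le_ceil x₀).trans (by exact_mod_cast hM)
  obtain ⟨hM1, hM2, hM3, hM4⟩ := hx₀ M hMx
  have hl2 : 0 < Real.log 2 := Real.log_pos (by norm_num)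
  have hL : 0 < Real.log M := by linarith
  have hM0 : (0 : ℝ) < M := by linarith
  set P : ℝ := ∏ p ∈ h.primeFactors, (1 + 6 / (p : ℝ)) with hP
  have hP1 : 1 ≤ P := by
    rw [hP]
    calc (1 : ℝ) = ∏ p ∈ h.primeFactors, (1 : ℝ) := by rw [Finset.prod_const_one]
      _ ≤ ∏ p ∈ h.primeFactors, (1 + 6 / (p : ℝ)) := by
          refine Finset.prod_le_prod (fun _ _ => zero_le_one) fun p _ => ?_
          have : (0 : ℝ) ≤ 6 / (p : ℝ) := by positivity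
          linarith
  set y := ⌊(M : ℝ) ^ ((1 : ℝ) / 14)⌋₊ with hy
  have hy2 : 2 ≤ y := Nat.le_floor (by exact_mod_cast hM2)
  have hyle : (y : ℝ) ≤ (M : ℝ) ^ ((1 : ℝ) / 14) := Nat.floor_le (by linarith)
  have hygt : (M : ℝ) ^ ((1 : ℝ) / 14) < y + 1 := Nat.lt_floor_add_one _
  have hyhalf : (M : ℝ) ^ ((1 : ℝ) / 14) / 2 ≤ y := by linarith
  have hlogy : Real.log M / 15 ≤ Real.log y := by
    have h1 : Real.log ((M : ℝ) ^ ((1 : ℝ) / 14) / 2) ≤ Real.log y :=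
      Real.log_le_log (by linarith) hyhalf
    rw [Real.log_div (by linarith) (by norm_num), Real.log_rpow hM0] at h1
    linarith
  have hlogy0 : 0 < Real.log y := lt_of_lt_of_le (by positivity) hlogy
  have hy12 : 3 * (y : ℝ) ^ 12 ≤ M / (Real.log M) ^ 2 := by
    rw [le_div_iff₀ (by positivity)]
    have h1 : (y : ℝ) ^ 12 ≤ (M : ℝ) ^ ((12 : ℝ) / 14) := by
      calc (y : ℝ) ^ 12 ≤ ((M : ℝ) ^ ((1 : ℝ) / 14)) ^ 12 :=
            pow_le_pow_left₀ (Nat.cast_nonneg _) hyle 12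
        _ = (M : ℝ) ^ ((12 : ℝ) / 14) := by
            rw [← Real.rpow_natCast, ← Real.rpow_mul hM0.le]
            norm_num
    calc 3 * (y : ℝ) ^ 12 * (Real.log M) ^ 2 = (y : ℝ) ^ 12 * (3 * (Real.log M) ^ 2) := by ring
      _ ≤ (M : ℝ) ^ ((12 : ℝ) / 14) * (M : ℝ) ^ ((1 : ℝ) / 7) :=
          mul_le_mul h1 hM4 (by positivity) (by positivity)
      _ = M := by
          rw [← Real.rpow_add hM0]
          norm_num
  have hMl : 0 < (M : ℝ) / (Real.log M) ^ 2 := by positivity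
  have hX : 226 * (M : ℝ) / (Real.log M) ^ 2 * P = 226 * (M / (Real.log M) ^ 2) * P := by ring
  rw [hX]
  have hMP : (M : ℝ) / (Real.log M) ^ 2 ≤ M / (Real.log M) ^ 2 * P :=
    le_mul_of_one_le_right hMl.le hP1
  by_cases h2 : 2 ∣ h
  · have h3 := pairs_even M h y h2 (by omega) hy2
    have h4 : (M : ℝ) * ((Dh h)⁻¹ ^ 2) / (Real.log y) ^ 2 ≤ 225 * (M / (Real.log M) ^ 2 * P) := by
      have h5 : (Real.log M / 15) ^ 2 ≤ (Real.log y) ^ 2 :=
        pow_le_pow_left₀ (by positivity) hlogy 2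
      calc (M : ℝ) * ((Dh h)⁻¹ ^ 2) / (Real.log y) ^ 2
          ≤ M * P / (Real.log y) ^ 2 := by
            apply div_le_div_of_nonneg_right _ (by positivity)
            exact mul_le_mul_of_nonneg_left (Dh_inv_sq_le h) hM0.le
        _ ≤ M * P / (Real.log M / 15) ^ 2 :=
            div_le_div_of_nonneg_left (by positivity) (by positivity) h5
        _ = 225 * (M / (Real.log M) ^ 2 * P) := by
            field_simp
            norm_num
    linarith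
  · have h3 : (pairs M h : ℝ) ≤ 1 := by exact_mod_cast pairs_odd M h h2
    have h4 : (1 : ℝ) ≤ (y : ℝ) ^ 12 := by
      apply one_le_pow₀
      exact_mod_cast (by omega : 1 ≤ y)
    linarith

end Pool.Agent.H.MP_0ec261_nt.SP
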