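import Pool.Agent.H.MP_0ec261_nt.SP.Sh

/-!
# The numbers `k` with `2 k - 1` prime and a small square part
-/

namespace Pool.Agent.H.MP_0ec261_nt.SP

open Finset

open Classical in
/-- the `k` with `2 k - 1 ≤ y` an odd prime and no square divisor `t²` with `t > z` -/
noncomputable def KE (y z : ℕ) : Finset ℕ :=
  (Icc 2 y).filter fun k => (2 * k - 1).Prime ∧ 2 * k - 1 ≤ y ∧ ∀ t, t ^ 2 ∣ k → t ≤ z

open Classical in
theorem KE_square (y z : ℕ) : ∀ k ∈ KE y z, ((KE y z).filter fun j => IsSquare (k * j)).card ≤ z := by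
  intro k hk
  rw [KE, mem_filter, mem_Icc] at hk
  obtain ⟨⟨hk2, -⟩, -⟩ := hk
  obtain ⟨d, t, hkt, hd⟩ := Nat.sq_mul_squarefree k
  have ht : t ≠ 0 := by
    rintro rfl
    rw [zero_pow two_ne_zero, zero_mul] at hkt
    omega
  have hsub : (KE y z).filter (fun j => IsSquare (k * j)) ⊆ (Icc 1 z).image (fun u => u ^ 2 * d) := by
    intro j hj
    rw [mem_filter, KE, mem_filter, mem_Icc] at hj
    obtain ⟨⟨⟨hj2, -⟩, -, -, hjt⟩, r, hr⟩ := hj
    have h1 : t ^ 2 * (d * j) = r ^ 2 := by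
      rw [pow_two r, ← hr, ← hkt, mul_assoc]
    have h2 : t ∣ r := (Nat.pow_dvd_pow_iff two_ne_zero).1 ⟨d * j, h1.symm⟩
    obtain ⟨w, rfl⟩ := h2
    have h3 : d * j = w ^ 2 := by
      rw [mul_pow] at h1
      exact Nat.eq_of_mul_eq_mul_left (pow_pos (Nat.pos_of_ne_zero ht) 2) h1
    have h4 : d ∣ w := (hd.dvd_pow_iff_dvd two_ne_zero).1 ⟨j, h3.symm⟩
    obtain ⟨u, rfl⟩ := h4
    have hd0 : 0 < d := Nat.pos_of_ne_zero hd.ne_zero
    have h5 : j = u ^ 2 * d := by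
      have h6 : d * j = d * (u ^ 2 * d) := by
        rw [h3]
        ring
      exact Nat.eq_of_mul_eq_mul_left hd0 h6
    refine mem_image.2 ⟨u, mem_Icc.2 ⟨?_, hjt u ⟨d, h5⟩⟩, h5.symm⟩
    rcases Nat.eq_zero_or_pos u with h7 | h7
    · rw [h7, zero_pow two_ne_zero, zero_mul] at h5
      omega
    · exact h7
  calc ((KE y z).filter fun j => IsSquare (k * j)).card
      ≤ ((Icc 1 z).image (fun u => u ^ 2 * d)).card := card_le_card hsub
    _ ≤ (Icc 1 z).card := card_image_le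
    _ = z := by rw [Nat.card_Icc, Nat.add_sub_cancel]

theorem KE_card : ∃ y₀ : ℕ, ∀ y : ℕ, y₀ ≤ y →
    (y : ℝ) / (4 * Real.log y) ≤ ((KE y ⌈5 * Real.log y⌉₊).card : ℝ) := by
  classical
  obtain ⟨y₁, hy₁⟩ := cheb_low
  refine ⟨max y₁ 3, fun y hy => ?_⟩
  have hy3 : 3 ≤ y := (le_max_right _ _).trans hy
  have hlow := hy₁ y ((le_max_left _ _).trans hy)
  have hyR : (3 : ℝ) ≤ y := by exact_mod_cast hy3
  have hlog : 0 < Real.log y := Real.log_pos (by linarith)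
  obtain ⟨z, hz⟩ : ∃ z, z = ⌈5 * Real.log y⌉₊ := ⟨_, rfl⟩
  rw [← hz]
  have hzl : 5 * Real.log y ≤ z := by
    rw [hz]
    exact Nat.le_ceil _
  have hzR : (0 : ℝ) < z := by linarith
  have hz0 : z ≠ 0 := by
    rintro rfl
    norm_num at hzR
  obtain ⟨M, hM⟩ : ∃ M, M = (y + 1) / 2 := ⟨_, rfl⟩
  -- all the candidates
  have hA : ((Icc 3 y).filter Nat.Prime).card ≤
      ((Icc 2 y).filter (fun k => (2 * k - 1).Prime ∧ 2 * k - 1 ≤ y)).card := by
    refine card_le_card_of_injOn (fun q => (q + 1) / 2) ?_ ?_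
    · intro q hq
      have hq' := mem_filter.1 (mem_coe.1 hq)
      rw [mem_Icc] at hq'
      obtain ⟨⟨h1, h2⟩, h3⟩ := hq'
      have hodd : q % 2 = 1 := h3.eq_two_or_odd.resolve_left (by omega)
      have h4 : 2 * ((q + 1) / 2) - 1 = q := by omega
      refine mem_coe.2 (mem_filter.2 ⟨mem_Icc.2 ⟨?_, ?_⟩, ?_, ?_⟩)
      · show 2 ≤ (q + 1) / 2
        omega
      · show (q + 1) / 2 ≤ y
        omega
      · rw [h4]
        exact h3
      · rw [h4]
        exact h2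
    · intro q hq q' hq' he
      have h1 := mem_filter.1 (mem_coe.1 hq)
      have h2 := mem_filter.1 (mem_coe.1 hq')
      rw [mem_Icc] at h1 h2
      have e1 : q % 2 = 1 := h1.2.eq_two_or_odd.resolve_left (by omega)
      have e2 : q' % 2 = 1 := h2.2.eq_two_or_odd.resolve_left (by omega)
      have he' : (q + 1) / 2 = (q' + 1) / 2 := he
      omega
  have hB : (Icc 2 y).filter (fun k => (2 * k - 1).Prime ∧ 2 * k - 1 ≤ y) ⊆
      KE y z ∪ (Ioc z M).biUnion (fun t => (Ioc 0 M).filter (fun k => t ^ 2 ∣ k)) := by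
    intro k hk
    rw [mem_filter, mem_Icc] at hk
    obtain ⟨⟨h1, h2⟩, h3, h4⟩ := hk
    by_cases h5 : ∀ t, t ^ 2 ∣ k → t ≤ z
    · refine mem_union_left _ ?_
      rw [KE, mem_filter, mem_Icc]
      exact ⟨⟨h1, h2⟩, h3, h4, h5⟩
    · refine mem_union_right _ ?_
      push Not at h5
      obtain ⟨t, ht1, ht2⟩ := h5
      have hk0 : 0 < k := by omega
      have h6 : t ^ 2 ≤ k := Nat.le_of_dvd hk0 ht1
      have h7 : t ≤ t ^ 2 := Nat.le_self_pow two_ne_zero t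
      rw [mem_biUnion]
      refine ⟨t, mem_Ioc.2 ⟨ht2, by omega⟩, mem_filter.2 ⟨mem_Ioc.2 ⟨hk0, by omega⟩, ht1⟩⟩
  have hcard : ((Icc 3 y).filter Nat.Prime).card ≤ (KE y z).card + ∑ t ∈ Ioc z M, M / t ^ 2 := by
    refine hA.trans ((card_le_card hB).trans ((card_union_le _ _).trans ?_))
    refine Nat.add_le_add_left (card_biUnion_le.trans (le_of_eq ?_)) _
    exact Finset.sum_congr rfl fun t _ => Nat.Ioc_filter_dvd_card_eq_div M (t ^ 2)
  have hsum : ((∑ t ∈ Ioc z M, M / t ^ 2 : ℕ) : ℝ) ≤ (M : ℝ) * (z : ℝ)⁻¹ := by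
    push_cast
    have h1 : ∑ t ∈ Ioc z M, ((M / t ^ 2 : ℕ) : ℝ) ≤ (M : ℝ) * ∑ t ∈ Ioc z M, ((t : ℝ) ^ 2)⁻¹ := by
      rw [Finset.mul_sum]
      refine Finset.sum_le_sum fun t _ => ?_
      refine Nat.cast_div_le.trans (le_of_eq ?_)
      push_cast
      rw [div_eq_mul_inv]
    refine h1.trans (mul_le_mul_of_nonneg_left ?_ (Nat.cast_nonneg M))
    rcases le_total z M with h2 | h2
    · refine (sum_Ioc_inv_sq_le_sub hz0 h2).trans ?_
      have h3 : (0 : ℝ) ≤ (M : ℝ)⁻¹ := by positivity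
      linarith
    · rw [Finset.Ioc_eq_empty (by omega), Finset.sum_empty]
      positivity
  have hMR : (M : ℝ) ≤ ((y : ℝ) + 1) / 2 := by
    have h1 : 2 * M ≤ y + 1 := by omega
    have h2 : ((2 * M : ℕ) : ℝ) ≤ ((y + 1 : ℕ) : ℝ) := by exact_mod_cast h1
    push_cast at h2
    linarith
  have hMz : (M : ℝ) * (z : ℝ)⁻¹ ≤ ((y : ℝ) + 1) / (10 * Real.log y) := by
    rw [← div_eq_mul_inv, div_le_div_iff₀ hzR (by positivity)]
    have h1 : (M : ℝ) * (10 * Real.log y) ≤ ((y : ℝ) + 1) / 2 * (10 * Real.log y) :=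
      mul_le_mul_of_nonneg_right hMR (by positivity)
    have h2 : ((y : ℝ) + 1) * (5 * Real.log y) ≤ ((y : ℝ) + 1) * z :=
      mul_le_mul_of_nonneg_left hzl (by positivity)
    linarith
  have hcR : (((Icc 3 y).filter Nat.Prime).card : ℝ) ≤
      ((KE y z).card : ℝ) + ((∑ t ∈ Ioc z M, M / t ^ 2 : ℕ) : ℝ) := by exact_mod_cast hcard
  have hfin : (y : ℝ) / (4 * Real.log y) + ((y : ℝ) + 1) / (10 * Real.log y) ≤
      (y : ℝ) / (2 * Real.log y) := by
    have e1 : (y : ℝ) / (4 * Real.log y) + ((y : ℝ) + 1) / (10 * Real.log y) =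
        (7 * (y : ℝ) + 2) / (20 * Real.log y) := by
      field_simp
      ring
    have e2 : (y : ℝ) / (2 * Real.log y) = (10 * (y : ℝ)) / (20 * Real.log y) := by
      field_simp
      ring
    rw [e1, e2]
    exact div_le_div_of_nonneg_right (by linarith) (by positivity)
  linarith

end Pool.Agent.H.MP_0ec261_nt.SP
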