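import Mathlib

/-!
# The choice of the parameter, even numbers
-/

namespace Pool.Agent.H.MP_0ec261_nt.SP

open Filter

private theorem Eg_core {L l y : ℝ} (hl : l = Real.log L) (hL : 200 ≤ L) (hl2 : 4000 ≤ l)
    (hy1 : y ≤ 2000 * L * l ^ 2) (hy2 : 2000 * L * l ^ 2 < y + 1) :
    L ≤ y ∧ 1 ≤ Real.log y ∧ 16 * (⌈5 * Real.log y⌉₊ : ℝ) * L ≤ y / (4 * Real.log y) ∧
      128 * y ^ 2 * L ≤ 512000000 * L ^ 7 := by
  have hL0 : 0 < L := by linarith
  have hl0 : 0 < l := by linarith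
  have hl1 : 1 ≤ l ^ 2 := by nlinarith
  have hLl : L ≤ L * l ^ 2 := by nlinarith
  have e1 : 2000 * L * l ^ 2 = 2000 * (L * l ^ 2) := by ring
  have hy0 : 0 < y := by linarith
  have hLy : L ≤ y := by linarith
  have hly : 1 ≤ Real.log y := by
    rw [Real.le_log_iff_exp_le hy0]
    have h := Real.exp_one_lt_d9
    linarith
  have h1 : Real.log y ≤ Real.log (2000 * L * l ^ 2) := Real.log_le_log hy0 hy1
  have h2 : Real.log (2000 * L * l ^ 2) = Real.log 2000 + Real.log L + 2 * Real.log l := by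
    rw [Real.log_mul (by positivity) (by positivity), Real.log_mul (by norm_num) hL0.ne',
      Real.log_pow]
    norm_num
  have h3 : Real.log 2000 ≤ 1999 := by
    have h := Real.log_le_sub_one_of_pos (show (0 : ℝ) < 2000 by norm_num)
    linarith
  have h4 : Real.log l ≤ l / 8 + 6 := by
    have h5 := Real.log_le_sub_one_of_pos (show (0 : ℝ) < l / 8 by positivity)
    have h6 := Real.log_le_sub_one_of_pos (show (0 : ℝ) < 8 by norm_num)
    have h7 : Real.log l = Real.log (l / 8) + Real.log 8 := by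
      rw [← Real.log_mul (by positivity) (by norm_num)]
      congr 1
      ring
    linarith
  have h5 : Real.log y ≤ 2 * l := by
    rw [h2, ← hl] at h1
    linarith
  have h6 : l ≤ L := by
    have h := Real.log_le_sub_one_of_pos hL0
    rw [← hl] at h
    linarith
  refine ⟨hLy, hly, ?_, ?_⟩
  · have hc : (⌈5 * Real.log y⌉₊ : ℝ) ≤ 11 * l := by
      have h := Nat.ceil_lt_add_one (show (0 : ℝ) ≤ 5 * Real.log y by linarith)
      linarith
    have hc0 : (0 : ℝ) ≤ (⌈5 * Real.log y⌉₊ : ℝ) := Nat.cast_nonneg _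
    rw [le_div_iff₀ (by linarith)]
    have h7 : (⌈5 * Real.log y⌉₊ : ℝ) * Real.log y ≤ 11 * l * (2 * l) :=
      mul_le_mul hc h5 (by linarith) (by positivity)
    have h8 : 64 * L * ((⌈5 * Real.log y⌉₊ : ℝ) * Real.log y) ≤ 64 * L * (11 * l * (2 * l)) :=
      mul_le_mul_of_nonneg_left h7 (by positivity)
    have h9 : 64 * L * (11 * l * (2 * l)) = 1408 * (L * l ^ 2) := by ring
    have h10 : 16 * (⌈5 * Real.log y⌉₊ : ℝ) * L * (4 * Real.log y) =
        64 * L * ((⌈5 * Real.log y⌉₊ : ℝ) * Real.log y) := by ring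
    rw [h10]
    linarith
  · have h7 : y ≤ 2000 * L ^ 3 := by
      have h8 : l ^ 2 ≤ L ^ 2 := pow_le_pow_left₀ hl0.le h6 2
      have h9 : L * l ^ 2 ≤ L * L ^ 2 := mul_le_mul_of_nonneg_left h8 hL0.le
      have h10 : L * L ^ 2 = L ^ 3 := by ring
      linarith
    have h8 : y ^ 2 ≤ (2000 * L ^ 3) ^ 2 := pow_le_pow_left₀ hy0.le h7 2
    calc 128 * y ^ 2 * L ≤ 128 * (2000 * L ^ 3) ^ 2 * L :=
          mul_le_mul_of_nonneg_right (mul_le_mul_of_nonneg_left h8 (by norm_num)) hL0.le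
      _ = 512000000 * L ^ 7 := by ring

theorem num_even (y₀ : ℕ) : ∃ N₀ : ℕ, ∀ N : ℕ, N₀ ≤ N → ∀ y : ℕ,
    y = ⌊2000 * Real.log N * (Real.log (Real.log N)) ^ 2⌋₊ →
      y₀ ≤ y ∧ 1 ≤ Real.log N ∧ 1 ≤ Real.log y ∧
      16 * (⌈5 * Real.log y⌉₊ : ℝ) * Real.log N ≤ y / (4 * Real.log y) ∧
      128 * (y : ℝ) ^ 2 * Real.log N ≤ N := by
  have hL : Tendsto (fun N : ℕ => Real.log N) atTop atTop :=
    Real.tendsto_log_atTop.comp tendsto_natCast_atTop_atTop
  have hl : Tendsto (fun N : ℕ => Real.log (Real.log N)) atTop atTop :=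
    Real.tendsto_log_atTop.comp hL
  have h5 : ∀ᶠ N : ℕ in atTop, ‖Real.log (N : ℝ) ^ 7‖ ≤ 1 / 512000000 * ‖id (N : ℝ)‖ :=
    tendsto_natCast_atTop_atTop.eventually
      ((Real.isLittleO_pow_log_id_atTop (n := 7)).bound (by norm_num : (0 : ℝ) < 1 / 512000000))
  obtain ⟨N₀, hN₀⟩ := eventually_atTop.1 ((hL.eventually_ge_atTop ((y₀ : ℝ) + 200)).and
    ((hl.eventually_ge_atTop 4000).and h5))
  refine ⟨N₀, fun N hN y hy => ?_⟩
  obtain ⟨a1, a2, a3⟩ := hN₀ N hN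
  have hy0 : (0 : ℝ) ≤ y₀ := Nat.cast_nonneg _
  have hLp : 200 ≤ Real.log (N : ℝ) := by linarith
  have hnn : 0 ≤ 2000 * Real.log (N : ℝ) * (Real.log (Real.log N)) ^ 2 :=
    mul_nonneg (by linarith) (by positivity)
  have hy1 : (y : ℝ) ≤ 2000 * Real.log N * (Real.log (Real.log N)) ^ 2 := by
    rw [hy]
    exact Nat.floor_le hnn
  have hy2 : 2000 * Real.log N * (Real.log (Real.log N)) ^ 2 < (y : ℝ) + 1 := by
    rw [hy]
    exact Nat.lt_floor_add_one _
  obtain ⟨b1, b2, b3, b4⟩ := Eg_core rfl hLp a2 hy1 hy2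
  refine ⟨?_, by linarith, b2, b3, b4.trans ?_⟩
  · have h : (y₀ : ℝ) ≤ y := by linarith
    exact_mod_cast h
  · have h1 : Real.log (N : ℝ) ^ 7 ≤ 1 / 512000000 * (N : ℝ) := by
      have h2 := le_trans (le_abs_self _) a3
      simpa using h2
    linarith

end Pool.Agent.H.MP_0ec261_nt.SP
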