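import Mathlib

/-!
# Chebyshev bounds and the choice of the parameter
-/

namespace Pool.Agent.H.MP_0ec261_nt.SP

open Finset

private theorem log_le_four {x : ℝ} (hx : 0 < x) : Real.log x ≤ 4 * √(√x) := by
  have h1 : 0 < √x := Real.sqrt_pos.2 hx
  have h2 : 0 < √(√x) := Real.sqrt_pos.2 h1
  have h3 := Real.log_le_sub_one_of_pos h2
  have h4 : Real.log (√(√x)) = Real.log x / 4 := by
    rw [Real.log_sqrt h1.le, Real.log_sqrt hx.le]; ring
  linarith

private theorem four_pow {x : ℝ} (hx : 0 ≤ x) : √(√x) ^ 4 = x := by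
  have h1 : √(√x) ^ 2 = √x := Real.sq_sqrt (Real.sqrt_nonneg x)
  have h2 : √x ^ 2 = x := Real.sq_sqrt hx
  calc √(√x) ^ 4 = (√(√x) ^ 2) ^ 2 := by ring
    _ = x := by rw [h1, h2]

private theorem pi_eq (n : ℕ) :
    Nat.primeCounting n = ((range (n + 1)).filter Nat.Prime).card := by
  rw [Nat.primeCounting, Nat.primeCounting', Nat.count_eq_card_filter_range]

theorem cheb_low : ∃ y₀ : ℕ, ∀ y : ℕ, y₀ ≤ y →
    (y : ℝ) / (2 * Real.log y) ≤ (((Icc 3 y).filter Nat.Prime).card : ℝ) := by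
  refine ⟨256, fun y hy => ?_⟩
  have hyR : (256 : ℝ) ≤ y := by exact_mod_cast hy
  have hy0 : (0 : ℝ) < y := by linarith
  have hc : Nat.primeCounting y ≤ ((Icc 3 y).filter Nat.Prime).card + 1 := by
    rw [pi_eq]
    have hsub : (range (y + 1)).filter Nat.Prime ⊆ insert 2 ((Icc 3 y).filter Nat.Prime) := by
      intro p hp
      rw [mem_filter, mem_range] at hp
      rw [mem_insert, mem_filter, mem_Icc]
      have := hp.2.two_le
      rcases Nat.eq_or_lt_of_le this with h | h
      · left; exact h.symm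
      · right; exact ⟨⟨h, by omega⟩, hp.2⟩
    exact (card_le_card hsub).trans (card_insert_le _ _)
  have hcR : (Nat.primeCounting y : ℝ) ≤ (((Icc 3 y).filter Nat.Prime).card : ℝ) + 1 := by
    exact_mod_cast hc
  have hpi := Chebyshev.pi_ge y
  have hL : 0 < Real.log y := Real.log_pos (by linarith)
  have hl4 := log_le_four hy0
  have hs4 := four_pow hy0.le
  have hs : 4 ≤ √(√(y : ℝ)) := by
    apply Real.le_sqrt_of_sq_le
    apply Real.le_sqrt_of_sq_le
    linarith
  have hlog1 : Real.log (y + 1) ≤ Real.log 2 + Real.log y := by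
    rw [← Real.log_mul (by norm_num) hy0.ne']
    exact Real.log_le_log (by linarith) (by linarith)
  have h2a := Real.log_two_gt_d9
  have h2b := Real.log_two_lt_d9
  set s := √(√(y : ℝ)) with hsdef
  have hs3 : s ^ 4 ≥ 64 * s := by
    have : s ^ 3 ≥ 64 := by
      have := pow_le_pow_left₀ (by norm_num : (0 : ℝ) ≤ 4) hs 3
      linarith
    nlinarith
  have hmain : (y : ℝ) / 2 + Real.log y ≤ y * Real.log 2 - Real.log (y + 1) := by
    have h1 : (y : ℝ) * 0.6931471803 ≤ y * Real.log 2 :=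
      mul_le_mul_of_nonneg_left h2a.le hy0.le
    nlinarith
  have hdiv := div_le_div_of_nonneg_right hmain hL.le
  have he : ((y : ℝ) / 2 + Real.log y) / Real.log y = (y : ℝ) / (2 * Real.log y) + 1 := by
    field_simp
  rw [he] at hdiv
  linarith

theorem cheb_mid : ∃ N₀ : ℕ, ∀ N y : ℕ, N₀ ≤ N → (y : ℝ) ^ 2 ≤ N →
    (N : ℝ) / (8 * Real.log N) ≤ (((Ioo y (2 * (N / 4))).filter Nat.Prime).card : ℝ) := by
  refine ⟨1000000, fun N y hN hy => ?_⟩
  have hNR : (1000000 : ℝ) ≤ N := by exact_mod_cast hN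
  have hN0 : (0 : ℝ) < N := by linarith
  obtain ⟨n, hn⟩ : ∃ n, 2 * (N / 4) = n + 1 := ⟨2 * (N / 4) - 1, by omega⟩
  have hc : Nat.primeCounting n ≤ ((Ioo y (2 * (N / 4))).filter Nat.Prime).card + y := by
    rw [pi_eq]
    have hsub : (range (n + 1)).filter Nat.Prime ⊆
        ((Ioo y (2 * (N / 4))).filter Nat.Prime) ∪ Icc 1 y := by
      intro p hp
      rw [mem_filter, mem_range] at hp
      rw [mem_union, mem_filter, mem_Ioo, mem_Icc]
      have := hp.2.two_le
      by_cases h : p ≤ y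
      · right; omega
      · left; exact ⟨by omega, hp.2⟩
    refine (card_le_card hsub).trans ((card_union_le _ _).trans ?_)
    rw [Nat.card_Icc]
    omega
  have hcR : (Nat.primeCounting n : ℝ) ≤
      (((Ioo y (2 * (N / 4))).filter Nat.Prime).card : ℝ) + y := by exact_mod_cast hc
  have hn1 : N ≤ 2 * n + 5 := by omega
  have hn2 : n + 1 ≤ N := by omega
  have hn1R : (N : ℝ) ≤ 2 * n + 5 := by exact_mod_cast hn1
  have hn2R : (n : ℝ) + 1 ≤ N := by exact_mod_cast hn2
  have hn0 : (2 : ℝ) < n := by linarith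
  have hpi := Chebyshev.pi_ge n
  have hLn : 0 < Real.log n := Real.log_pos (by linarith)
  have hLN : Real.log n ≤ Real.log N := Real.log_le_log (by linarith) (by linarith)
  have hLN0 : 0 < Real.log N := by linarith
  have hl4 := log_le_four hN0
  have hs4 := four_pow hN0.le
  have hs : 31 ≤ √(√(N : ℝ)) := by
    apply Real.le_sqrt_of_sq_le
    apply Real.le_sqrt_of_sq_le
    linarith
  have hyS : (y : ℝ) ≤ √(√(N : ℝ)) ^ 2 := by
    rw [Real.sq_sqrt (Real.sqrt_nonneg _)]
    exact Real.le_sqrt_of_sq_le hy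
  have hlog1 : Real.log (n + 1) ≤ Real.log N := Real.log_le_log (by linarith) hn2R
  have h2a := Real.log_two_gt_d9
  set s := √(√(N : ℝ)) with hsdef
  have hs3 : s ^ 4 ≥ 31 * s ^ 3 := by nlinarith [pow_pos (by linarith : 0 < s) 3]
  have hs2 : s ^ 3 ≥ 961 * s := by nlinarith [mul_self_nonneg (s - 31), sq_nonneg s]
  have hprod : (y : ℝ) * Real.log N ≤ s ^ 2 * (4 * s) :=
    mul_le_mul hyS hl4 hLN0.le (sq_nonneg s)
  have hA : (N : ℝ) / 8 + y * Real.log N ≤ n * Real.log 2 - Real.log (n + 1) := by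
    have h1 : (n : ℝ) * 0.6931471803 ≤ n * Real.log 2 :=
      mul_le_mul_of_nonneg_left h2a.le (by linarith)
    nlinarith
  have hB : (N : ℝ) / 8 + y * Real.log N ≥ 0 := by positivity
  have hdiv : ((N : ℝ) / 8 + y * Real.log N) / Real.log N ≤
      (n * Real.log 2 - Real.log (n + 1)) / Real.log n :=
    div_le_div₀ (hB.le.trans hA) hA hLn hLN
  have he : ((N : ℝ) / 8 + y * Real.log N) / Real.log N = (N : ℝ) / (8 * Real.log N) + y := by
    field_simp
  rw [he] at hdiv
  linarith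

end Pool.Agent.H.MP_0ec261_nt.SP
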