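import Pool.Agent.H.MP_0ec261_nt.SP.Ec
import Pool.Agent.H.MP_0ec261_nt.SP.Ed
import Pool.Agent.H.MP_0ec261_nt.SP.Ee
import Pool.Agent.H.MP_0ec261_nt.SP.Ef
import Pool.Agent.H.MP_0ec261_nt.SP.Eg
import Pool.Agent.H.MP_0ec261_nt.SP.Sh

/-!
# A positive proportion of the even numbers is represented with a small prime `q`
-/

namespace Pool.Agent.H.MP_0ec261_nt.SP

open Finset NumberTheorySymbols Pool.Agent.H.MP_711652_nt

private theorem Ej_num {P K S N L C A R : ℝ} (hL : 1 ≤ L) (hC : 0 < C) (hN : 0 < N)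
    (hP : N / (8 * L) ≤ P) (hK : 16 * L ≤ K) (hS0 : 0 ≤ S)
    (hS : S ≤ C * (2 * K) ^ 2 * (N / L ^ 2)) (hR : P * K / 4 ≤ R)
    (hA : R ^ 2 ≤ A * (P * K + 2 * S)) (hA0 : 0 ≤ A) : 1 / (16 * (512 * C + 1)) * N ≤ A := by
  have hL0 : 0 < L := by linarith
  have hP0 : 0 < P := lt_of_lt_of_le (by positivity) hP
  have hK0 : 0 < K := by linarith
  have h1 : N ≤ 8 * L * P := by
    rw [div_le_iff₀ (by positivity)] at hP
    linarith
  have h2 : 2 * N ≤ P * K := by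
    have h3 : P * (16 * L) ≤ P * K := mul_le_mul_of_nonneg_left hK hP0.le
    nlinarith
  have h3 : N * (N / L ^ 2) ≤ 64 * P ^ 2 := by
    rw [← mul_div_assoc, div_le_iff₀ (by positivity)]
    nlinarith
  have h4 : N * S ≤ 256 * C * (P * K) ^ 2 := by
    calc N * S ≤ N * (C * (2 * K) ^ 2 * (N / L ^ 2)) := mul_le_mul_of_nonneg_left hS hN.le
      _ = 4 * C * K ^ 2 * (N * (N / L ^ 2)) := by ring
      _ ≤ 4 * C * K ^ 2 * (64 * P ^ 2) := mul_le_mul_of_nonneg_left h3 (by positivity)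
      _ = 256 * C * (P * K) ^ 2 := by ring
  have h5 : N * (P * K) ≤ (P * K) ^ 2 := by
    have : 0 < P * K := by positivity
    nlinarith
  have h6 : (P * K) ^ 2 / 16 ≤ R ^ 2 := by
    have : 0 ≤ P * K / 4 := by positivity
    nlinarith
  have h7 : N * (P * K + 2 * S) ≤ (512 * C + 1) * (P * K) ^ 2 := by nlinarith
  have h8 : N * ((P * K) ^ 2 / 16) ≤ A * ((512 * C + 1) * (P * K) ^ 2) := by
    calc N * ((P * K) ^ 2 / 16) ≤ N * R ^ 2 := mul_le_mul_of_nonneg_left h6 hN.le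
      _ ≤ N * (A * (P * K + 2 * S)) := mul_le_mul_of_nonneg_left hA hN.le
      _ = A * (N * (P * K + 2 * S)) := by ring
      _ ≤ A * ((512 * C + 1) * (P * K) ^ 2) := mul_le_mul_of_nonneg_left h7 hA0
  have h9 : 0 < (P * K) ^ 2 := by positivity
  rw [div_mul_eq_mul_div, one_mul, div_le_iff₀ (by positivity)]
  nlinarith

open Classical in
/-- A positive proportion of the even numbers `n ≤ N` is `p + q` with
`q ≤ 2000 log N (log log N)²` and `J((q + 1) / 2 | n + 1) = 1`. -/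
theorem small_even : ∃ c : ℝ, 0 < c ∧ ∃ N₀ : ℕ, ∀ N : ℕ, N₀ ≤ N → c * N ≤
    (((range (N + 1)).filter fun n => Even n ∧ ∃ q : ℕ,
      (q : ℝ) ≤ 2000 * Real.log N * (Real.log (Real.log N)) ^ 2 ∧ q.Prime ∧ 2 * q ≤ n ∧
      (n - q).Prime ∧ n - q ≠ 2 ∧ J((((q + 1) / 2 : ℕ) : ℤ) | n + 1) = 1).card : ℝ) := by
  obtain ⟨C, hC, y₁, hps⟩ := pair_sum_even
  obtain ⟨y₂, hlow⟩ := KE_card
  obtain ⟨N₁, hmid⟩ := cheb_mid
  obtain ⟨N₂, hnum⟩ := num_even (max (max y₁ y₂) 3)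
  refine ⟨1 / (16 * (512 * (4 * C) + 1)), by positivity, max (max N₁ N₂) 16, fun N hN => ?_⟩
  obtain ⟨y, hy⟩ : ∃ y : ℕ, y = ⌊2000 * Real.log N * (Real.log (Real.log N)) ^ 2⌋₊ := ⟨_, rfl⟩
  have hN1 : N₁ ≤ N := (le_max_left _ _).trans ((le_max_left _ _).trans hN)
  have hN2 : N₂ ≤ N := (le_max_right _ _).trans ((le_max_left _ _).trans hN)
  have hN16 : 16 ≤ N := (le_max_right _ _).trans hN
  obtain ⟨a1, a2, a3, a4, a5⟩ := hnum N hN2 y hy
  have hy1 : y₁ ≤ y := (le_max_left _ _).trans ((le_max_left _ _).trans a1)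
  have hy2 : y₂ ≤ y := (le_max_right _ _).trans ((le_max_left _ _).trans a1)
  have hy3 : 3 ≤ y := (le_max_right _ _).trans a1
  have hy0 : (3 : ℝ) ≤ y := by exact_mod_cast hy3
  have hN0 : (16 : ℝ) ≤ N := by exact_mod_cast hN16
  have hyy : 128 * (y : ℝ) ^ 2 ≤ N := by
    have : 0 ≤ 128 * (y : ℝ) ^ 2 := by positivity
    nlinarith
  have hyN : 8 * y ≤ N := by
    have h1 : (8 : ℝ) * y ≤ N := by nlinarith
    exact_mod_cast h1
  have h1 := hmid N y hN1 (by nlinarith)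
  have h2 := hlow y hy2
  have h3 := hps y N hy1 (by omega)
  obtain ⟨B, hB⟩ : ∃ B : ℕ, B = ⌈5 * Real.log y⌉₊ := ⟨_, rfl⟩
  rw [← hB] at h2 a4
  have hB1 : (1 : ℝ) ≤ B := by
    have h4 : 5 * Real.log y ≤ (B : ℝ) := by
      rw [hB]
      exact Nat.le_ceil _
    linarith
  obtain ⟨P, hP⟩ : ∃ P, P = (Ioo y (2 * (N / 4))).filter Nat.Prime := ⟨_, rfl⟩
  obtain ⟨K, hK⟩ : ∃ K, K = KE y B := ⟨_, rfl⟩
  rw [← hP] at h1
  rw [← hK] at h2
  have hKp : ∀ k ∈ K, 2 ≤ k ∧ k ≤ y ∧ (2 * k - 1).Prime ∧ 2 * k - 1 ≤ y := by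
    intro k hk
    rw [hK, KE, mem_filter, mem_Icc] at hk
    exact ⟨hk.1.1, hk.1.2, hk.2.1, hk.2.2.1⟩
  have hPp : ∀ p ∈ P, p.Prime ∧ p ≠ 2 ∧ y < p ∧ p < 2 * (N / 4) := by
    intro p hp
    rw [hP, mem_filter, mem_Ioo] at hp
    exact ⟨hp.2, by omega, hp.1.1, hp.1.2⟩
  have hKB : 16 * (B : ℝ) * Real.log N ≤ (K.card : ℝ) := a4.trans h2
  have hKc : 16 * Real.log N ≤ (K.card : ℝ) := by
    refine le_trans ?_ hKB
    nlinarith
  have hKc0 : (0 : ℝ) < K.card := by linarith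
  have hPc : 16 * (y : ℝ) ^ 2 ≤ P.card := by
    refine le_trans ?_ h1
    rw [le_div_iff₀ (by positivity)]
    linarith
  have hPK : 2 * (N : ℝ) * B ≤ P.card * K.card := by
    have h5 := h1
    rw [div_le_iff₀ (by positivity)] at h5
    have h4 : (P.card : ℝ) * (16 * (B : ℝ) * Real.log N) ≤ P.card * K.card :=
      mul_le_mul_of_nonneg_left hKB (by positivity)
    have h6 : 2 * (N : ℝ) * B ≤ 2 * (P.card * (8 * Real.log N)) * B := by
      have hB0 : (0 : ℝ) ≤ B := by linarith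
      exact mul_le_mul_of_nonneg_right (by linarith) hB0
    linarith
  have hX : (4 : ℝ) * ((N / 4 : ℕ) : ℝ) ≤ N := by
    exact_mod_cast Nat.mul_div_le N 4
  have hcond : 4 * (((N / 4 : ℕ) : ℝ) * (B * K.card) + 2 * (y : ℝ) ^ 2 * (K.card : ℝ) ^ 2) ≤
      P.card * (K.card : ℝ) ^ 2 := by
    have h4 : 4 * ((N / 4 : ℕ) : ℝ) * (B * K.card) ≤ N * (B * K.card) :=
      mul_le_mul_of_nonneg_right hX (by positivity)
    have h5 : 2 * (N : ℝ) * B * K.card ≤ P.card * K.card * K.card :=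
      mul_le_mul_of_nonneg_right hPK hKc0.le
    have h6 : 16 * (y : ℝ) ^ 2 * (K.card : ℝ) ^ 2 ≤ P.card * (K.card : ℝ) ^ 2 :=
      mul_le_mul_of_nonneg_right hPc (by positivity)
    nlinarith
  have hR := first_all (B := B) (fun k hk => ⟨by have := (hKp k hk).1; omega, (hKp k hk).2.1⟩)
    (fun k hk => by
      rw [hK] at hk ⊢
      exact KE_square y B k hk) hPp hcond
  obtain ⟨R, hRdef⟩ : ∃ R, R = (P ×ˢ K).filter fun x => J((x.2 : ℤ) | x.1 + 2 * x.2) = 1 :=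
    ⟨_, rfl⟩
  rw [← hRdef] at hR
  have hsec := second_even (y := y) (N := N)
    (fun k hk => ⟨by have := (hKp k hk).1; omega, (hKp k hk).2.2.1, (hKp k hk).2.2.2⟩)
    (fun p hp => ⟨(hPp p hp).1, by have := (hPp p hp).2.2.2; omega⟩)
    (show R ⊆ P ×ˢ K by rw [hRdef]; exact filter_subset _ _)
  have himg : (R.image fun x => x.1 + 2 * x.2) ⊆
      ((range (N + 1)).filter fun n => Even n ∧ ∃ q : ℕ,
      (q : ℝ) ≤ 2000 * Real.log N * (Real.log (Real.log N)) ^ 2 ∧ q.Prime ∧ 2 * q ≤ n ∧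
      (n - q).Prime ∧ n - q ≠ 2 ∧ J((((q + 1) / 2 : ℕ) : ℤ) | n + 1) = 1).image
        (fun n => n + 1) := by
    intro n hn
    rw [mem_image] at hn
    obtain ⟨x, hx, rfl⟩ := hn
    rw [hRdef, mem_filter, mem_product] at hx
    obtain ⟨⟨hx1, hx2⟩, hx3⟩ := hx
    have b1 := hPp x.1 hx1
    have b2 := hKp x.2 hx2
    have b3 : x.1 + 2 * x.2 - 1 - (2 * x.2 - 1) = x.1 := by omega
    have b5 : x.1 + 2 * x.2 - 1 + 1 = x.1 + 2 * x.2 := by omega
    have b6 : (2 * x.2 - 1 + 1) / 2 = x.2 := by omega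
    rw [mem_image]
    refine ⟨x.1 + 2 * x.2 - 1, ?_, by omega⟩
    rw [mem_filter, mem_range]
    refine ⟨by omega, ?_, 2 * x.2 - 1, ?_, b2.2.2.1, by omega, ?_, ?_, ?_⟩
    · obtain ⟨m, hm⟩ := b1.1.odd_of_ne_two b1.2.1
      exact ⟨m + x.2, by omega⟩
    · have hpos : 0 ≤ 2000 * Real.log N * (Real.log (Real.log N)) ^ 2 := by
        have : 0 ≤ Real.log N := by linarith
        positivity
      have b4 : ((2 * x.2 - 1 : ℕ) : ℝ) ≤ y := by exact_mod_cast b2.2.2.2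
      refine b4.trans ?_
      rw [hy]
      exact Nat.floor_le hpos
    · rw [b3]
      exact b1.1
    · rw [b3]
      exact b1.2.1
    · rw [b5, b6]
      exact hx3
  have hcard : ((R.image fun x => x.1 + 2 * x.2).card : ℝ) ≤ _ :=
    Nat.cast_le.2 ((card_le_card himg).trans card_image_le)
  refine le_trans ?_ hcard
  have hyl : (y : ℝ) / Real.log y ≤ 4 * K.card := by
    have : (y : ℝ) / (4 * Real.log y) = (y : ℝ) / Real.log y / 4 := by
      rw [div_div, mul_comm]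
    linarith
  have hS : ∑ h ∈ Icc 1 y, (pairs (y + 1) (2 * h) : ℝ) * pairs N (2 * h) ≤
      4 * C * (2 * (K.card : ℝ)) ^ 2 * (N / (Real.log N) ^ 2) := by
    refine h3.trans (mul_le_mul_of_nonneg_right ?_ (by positivity))
    have h7 : ((y : ℝ) / Real.log y) ^ 2 ≤ (4 * (K.card : ℝ)) ^ 2 :=
      pow_le_pow_left₀ (by positivity) hyl 2
    calc C * ((y : ℝ) / Real.log y) ^ 2 ≤ C * (4 * (K.card : ℝ)) ^ 2 :=
          mul_le_mul_of_nonneg_left h7 hC.le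
      _ = 4 * C * (2 * (K.card : ℝ)) ^ 2 := by ring
  exact Ej_num a2 (by positivity) (by linarith) h1 hKc
    (Finset.sum_nonneg fun _ _ => by positivity) hS hR hsec (by positivity)

end Pool.Agent.H.MP_0ec261_nt.SP
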