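import Pool.Agent.H.MP_0ec261_nt.AA.Cnt
import Pool.Agent.H.MP_0ec261_nt.AA.CaseI

/-!
# Primes `2 k - 1` with `t² ∣ k`
-/

namespace Pool.Agent.H.MP_0ec261_nt.SP

open Finset Pool.Agent.H.MP_0ec261_nt.AA Pool.Agent.H.MP_711652_nt

private theorem Fa_ev : ∃ L₀ : ℝ, ∀ L : ℝ, L₀ ≤ L → 400000000 ≤ L ∧
    800 * L ^ 2 < Real.exp (L / 1000) ∧ 8000 * L ^ 3 ≤ Real.exp (L / 2) := by
  have h2 : ∀ᶠ L : ℝ in Filter.atTop, 800 * L ^ 2 < Real.exp (L / 1000) := by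
    have h := (isLittleO_pow_exp_pos_mul_atTop (b := 1 / 1000) 2 (by norm_num)).bound
      (show (0 : ℝ) < 1 / 1000 by norm_num)
    filter_upwards [h, Filter.eventually_ge_atTop 1] with L hL h1
    rw [Real.norm_eq_abs, Real.norm_eq_abs, abs_of_nonneg (by positivity),
      abs_of_nonneg (Real.exp_pos _).le, one_div_mul_eq_div (1000 : ℝ) L] at hL
    have := Real.exp_pos (L / 1000)
    linarith
  have h3 : ∀ᶠ L : ℝ in Filter.atTop, 8000 * L ^ 3 ≤ Real.exp (L / 2) := by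
    have h := (isLittleO_pow_exp_pos_mul_atTop (b := 1 / 2) 3 (by norm_num)).bound
      (show (0 : ℝ) < 1 / 8000 by norm_num)
    filter_upwards [h, Filter.eventually_ge_atTop 1] with L hL h1
    rw [Real.norm_eq_abs, Real.norm_eq_abs, abs_of_nonneg (by positivity),
      abs_of_nonneg (Real.exp_pos _).le, one_div_mul_eq_div (2 : ℝ) L] at hL
    linarith
  obtain ⟨L₀, h⟩ := Filter.eventually_atTop.1
    ((Filter.eventually_ge_atTop (400000000 : ℝ)).and (h2.and h3))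
  exact ⟨L₀, fun L hL => h L hL⟩

private theorem Fa_phi {Cτ : ℝ} (hC : 1 ≤ Cτ) {t : ℕ} (ht : 1 ≤ t)
    (h : (t : ℝ) / t.totient ≤ Cτ * (t : ℝ) ^ (1 / 4 : ℝ)) :
    1 / ((2 * t ^ 2).totient : ℝ) ≤ Cτ * (t : ℝ) ^ (-(7 / 4) : ℝ) := by
  have ht0 : (0 : ℝ) < t := by exact_mod_cast ht
  have hp : 0 < t.totient := Nat.totient_pos.2 ht
  have hpR : (0 : ℝ) < t.totient := by exact_mod_cast hp
  have h1 : (t * t).totient = t.totient * t := by
    have h2 := Nat.totient_gcd_mul_totient_mul t t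
    rw [Nat.gcd_self, mul_assoc] at h2
    exact Nat.eq_of_mul_eq_mul_left hp h2
  have h3 : t.totient * t ≤ (2 * t ^ 2).totient := by
    rw [← h1]
    refine Nat.le_of_dvd (Nat.totient_pos.2 (by positivity)) (Nat.totient_dvd_of_dvd ?_)
    rw [sq]
    exact dvd_mul_left _ _
  have h3R : (t.totient : ℝ) * t ≤ ((2 * t ^ 2).totient : ℝ) := by exact_mod_cast h3
  have h4 : 1 / ((2 * t ^ 2).totient : ℝ) ≤ 1 / ((t.totient : ℝ) * t) :=
    one_div_le_one_div_of_le (by positivity) h3R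
  have h5 : 1 / ((t.totient : ℝ) * t) = (t : ℝ) / t.totient * (t : ℝ) ^ (-2 : ℝ) := by
    rw [Real.rpow_neg ht0.le]
    have : (t : ℝ) ^ (2 : ℝ) = (t : ℝ) ^ 2 := by
      have := Real.rpow_natCast (t : ℝ) 2
      push_cast at this
      exact this
    rw [this]
    field_simp
  have h6 : (t : ℝ) ^ (1 / 4 : ℝ) * (t : ℝ) ^ (-2 : ℝ) = (t : ℝ) ^ (-(7 / 4) : ℝ) := by
    rw [← Real.rpow_add ht0]
    norm_num
  calc 1 / ((2 * t ^ 2).totient : ℝ) ≤ (t : ℝ) / t.totient * (t : ℝ) ^ (-2 : ℝ) := h4.trans h5.le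
    _ ≤ Cτ * (t : ℝ) ^ (1 / 4 : ℝ) * (t : ℝ) ^ (-2 : ℝ) :=
        mul_le_mul_of_nonneg_right h (Real.rpow_nonneg ht0.le _)
    _ = Cτ * (t : ℝ) ^ (-(7 / 4) : ℝ) := by rw [mul_assoc, h6]

open Classical in
theorem bt : ∃ C : ℝ, 0 < C ∧ ∃ y₀ : ℕ, ∀ y : ℕ, y₀ ≤ y → ∀ t : ℕ, 1 ≤ t →
    (t : ℝ) ≤ 20 * Real.log y →
    ((((Icc 2 y).filter fun k => (2 * k - 1).Prime ∧ 2 * k - 1 ≤ y ∧ t ^ 2 ∣ k).card : ℕ) : ℝ) ≤
      C * (y / Real.log y) * (t : ℝ) ^ (-(7 / 4) : ℝ) := by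
  obtain ⟨Cτ, hCτ, hτ⟩ := Pool.Agent.H.MP_0ec261_nt.AA.tot_bound
  obtain ⟨L₀, hL₀⟩ := Fa_ev
  have hC1 := C1_pos
  have tl : Filter.Tendsto (fun n : ℕ => Real.log (n : ℝ)) Filter.atTop Filter.atTop :=
    Real.tendsto_log_atTop.comp tendsto_natCast_atTop_atTop
  obtain ⟨y₀, hy₀⟩ := Filter.eventually_atTop.1 (tl.eventually_ge_atTop L₀)
  refine ⟨1600 * C1 * Cτ + 1, by positivity, max y₀ 1, ?_⟩
  intro y hy t ht htL
  obtain ⟨L, hL⟩ : ∃ L : ℝ, L = Real.log y := ⟨_, rfl⟩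
  have hy1 : 1 ≤ y := le_of_max_le_right hy
  have hyR : (1 : ℝ) ≤ y := by exact_mod_cast hy1
  have hy0 : (0 : ℝ) < y := by linarith
  obtain ⟨g1, g2, g3⟩ := hL₀ L (hL ▸ hy₀ y (le_of_max_le_left hy))
  rw [← hL] at htL ⊢
  have hexp : Real.exp L = y := by rw [hL, Real.exp_log hy0]
  have hL0 : 0 < L := by linarith
  have ht0 : (0 : ℝ) < t := by exact_mod_cast ht
  obtain ⟨w, hw⟩ : ∃ w : ℕ, w = ⌊L / 200⌋₊ := ⟨_, rfl⟩
  have hw1 : (w : ℝ) ≤ L / 200 := by rw [hw]; exact Nat.floor_le (by positivity)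
  have hw2 : L / 200 - 1 ≤ w := by
    rw [hw]
    have := Nat.lt_floor_add_one (L / 200)
    linarith
  have hw3 : 1000001 ≤ w := by
    have : ((1000001 : ℕ) : ℝ) ≤ w := by push_cast; linarith
    exact_mod_cast this
  have e2a : (2 : ℝ) ≤ Real.exp 0.7 := by
    have h1 := Real.log_two_lt_d9
    have h2 : Real.exp (Real.log 2) = 2 := Real.exp_log two_pos
    calc (2 : ℝ) = Real.exp (Real.log 2) := h2.symm
      _ ≤ Real.exp 0.7 := Real.exp_le_exp.2 (by linarith)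
  have e2b : Real.exp 0.5 ≤ (2 : ℝ) := by
    have h1 := Real.log_two_gt_d9
    have h2 : Real.exp (Real.log 2) = 2 := Real.exp_log two_pos
    calc Real.exp 0.5 ≤ Real.exp (Real.log 2) := Real.exp_le_exp.2 (by linarith)
      _ = 2 := h2
  have hpow : ∀ k : ℕ, (2 : ℝ) ^ k ≤ Real.exp (0.7 * k) := by
    intro k
    rw [mul_comm, Real.exp_nat_mul]
    exact pow_le_pow_left₀ (by norm_num) e2a k
  have hpow2 : ∀ k : ℕ, Real.exp (0.5 * k) ≤ (2 : ℝ) ^ k := by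
    intro k
    rw [mul_comm, Real.exp_nat_mul]
    exact pow_le_pow_left₀ (Real.exp_pos _).le e2b k
  have ht2 : 2 * (t : ℝ) ^ 2 ≤ 800 * L ^ 2 := by
    have := pow_le_pow_left₀ ht0.le htL 2
    have h2 : (20 * L) ^ 2 = 400 * L ^ 2 := by ring
    linarith
  obtain ⟨q, hq⟩ : ∃ q : ℕ, q = 2 * t ^ 2 := ⟨_, rfl⟩
  have hq0 : 0 < q := by rw [hq]; positivity
  have hqR : (q : ℝ) ≤ 800 * L ^ 2 := by rw [hq]; push_cast; exact ht2
  have hqw : q < 2 ^ (w - 1) := by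
    have h1 : (q : ℝ) < ((2 ^ (w - 1) : ℕ) : ℝ) := by
      push_cast
      refine lt_of_le_of_lt hqR (g2.trans_le ((Real.exp_le_exp.2 ?_).trans (hpow2 (w - 1))))
      rw [Nat.cast_sub (by omega)]
      push_cast
      linarith
    exact_mod_cast h1
  have hH : 2 ^ (244 * w) * q ≤ y + 1 := by
    have h1 : (((2 ^ (244 * w) * q : ℕ)) : ℝ) ≤ ((y + 1 : ℕ) : ℝ) := by
      push_cast
      have h2 : (2 : ℝ) ^ (244 * w) ≤ Real.exp (0.854 * L) := by
        refine (hpow _).trans (Real.exp_le_exp.2 ?_)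
        push_cast
        linarith
      have h3 : (2 : ℝ) ^ (244 * w) * q ≤ Real.exp (0.854 * L) * Real.exp (L / 1000) :=
        mul_le_mul h2 (hqR.trans g2.le) (Nat.cast_nonneg _) (Real.exp_pos _).le
      rw [← Real.exp_add] at h3
      have h4 : Real.exp (0.854 * L + L / 1000) ≤ Real.exp L := Real.exp_le_exp.2 (by linarith)
      rw [hexp] at h4
      linarith
    exact_mod_cast h1
  have hqA : q ≤ 2 ^ w := by
    have : 2 ^ (w - 1) ≤ 2 ^ w := Nat.pow_le_pow_right (by norm_num) (by omega)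
    omega
  have hcop : Nat.Coprime (q - 1) q := by
    have h1 : q - 1 + 1 = q := by omega
    have h2 : Nat.Coprime (q - 1) (q - 1 + 1) := by simp
    rwa [h1] at h2
  have hr := rough_int (w := w) (A := 2 ^ w) (H := y + 1) (q := q) (b := q - 1) hw3 hq0 hqw hH hqA
    (by omega) hcop
  obtain ⟨S, hS⟩ : ∃ S : Finset ℕ, S = (Icc 2 y).filter fun k =>
    (2 * k - 1).Prime ∧ 2 * k - 1 ≤ y ∧ t ^ 2 ∣ k := ⟨_, rfl⟩
  rw [← hS]
  have hsplit := Finset.card_filter_add_card_filter_not (s := S) (fun k => 2 ^ w ≤ 2 * k - 1)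
  have hS1 : (S.filter fun k => 2 ^ w ≤ 2 * k - 1).card ≤
      ((Ico (2 ^ w) (2 ^ w + (y + 1))).filter (fun n => n % q = q - 1 ∧ Rgh (2 ^ w) n)).card := by
    refine Finset.card_le_card_of_injOn (fun k => 2 * k - 1) ?_ ?_
    · intro k hk
      rw [Finset.mem_coe, Finset.mem_filter, hS, Finset.mem_filter, Finset.mem_Icc] at hk
      obtain ⟨⟨⟨hk2, hky⟩, hkp, hkl, hkd⟩, hkw⟩ := hk
      rw [Finset.mem_coe, Finset.mem_filter, Finset.mem_Ico]
      refine ⟨⟨hkw, lt_of_le_of_lt hkl (Nat.lt_of_lt_of_le (Nat.lt_succ_self y)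
        (Nat.le_add_left _ _))⟩, ?_, ?_⟩
      · obtain ⟨j, hj⟩ : q ∣ 2 * k := by
          rw [hq]
          exact mul_dvd_mul_left 2 hkd
        have hj1 : 1 ≤ j := by
          rcases Nat.eq_zero_or_pos j with h | h
          · rw [h, mul_zero] at hj
            omega
          · exact h
        obtain ⟨j', rfl⟩ := Nat.exists_eq_add_of_le hj1
        show (2 * k - 1) % q = q - 1
        have h1 : 2 * k - 1 = q * j' + (q - 1) := by
          rw [hj, mul_add, mul_one]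
          omega
        rw [h1, Nat.mul_add_mod, Nat.mod_eq_of_lt (by omega)]
      · intro p hp hpd
        rw [(Nat.prime_dvd_prime_iff_eq hp hkp).1 hpd]
        exact hkw
    · intro a ha b hb hab
      rw [Finset.mem_coe, Finset.mem_filter, hS, Finset.mem_filter, Finset.mem_Icc] at ha hb
      have h1 : 2 * a - 1 = 2 * b - 1 := hab
      omega
  have hS2 : (S.filter fun k => ¬ 2 ^ w ≤ 2 * k - 1).card ≤ 2 ^ w := by
    have h1 : (S.filter fun k => ¬ 2 ^ w ≤ 2 * k - 1) ⊆ range (2 ^ w) := by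
      intro k hk
      rw [Finset.mem_filter, hS, Finset.mem_filter, Finset.mem_Icc] at hk
      rw [Finset.mem_range]
      omega
    calc _ ≤ (range (2 ^ w)).card := Finset.card_le_card h1
      _ = 2 ^ w := Finset.card_range _
  have hcardR : (S.card : ℝ) ≤ 2 * C1 * ((y + 1 : ℕ) : ℝ) / (q.totient * w) + (2 : ℝ) ^ w := by
    have h1 : S.card ≤ ((Ico (2 ^ w) (2 ^ w + (y + 1))).filter
        (fun n => n % q = q - 1 ∧ Rgh (2 ^ w) n)).card + 2 ^ w := by omega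
    have h2 : (S.card : ℝ) ≤ (((Ico (2 ^ w) (2 ^ w + (y + 1))).filter
        (fun n => n % q = q - 1 ∧ Rgh (2 ^ w) n)).card : ℝ) + (2 : ℝ) ^ w := by exact_mod_cast h1
    linarith
  have hT0 : 0 ≤ (t : ℝ) ^ (-(7 / 4) : ℝ) := Real.rpow_nonneg ht0.le _
  have hphi := Fa_phi hCτ ht (hτ t ht)
  rw [← hq] at hphi
  have hqt : (0 : ℝ) < q.totient := by exact_mod_cast Nat.totient_pos.2 hq0
  have hwL : L / 400 ≤ w := by linarith
  have hw0 : (0 : ℝ) < w := by linarith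
  have hfirst : 2 * C1 * ((y + 1 : ℕ) : ℝ) / (q.totient * w) ≤
      1600 * C1 * Cτ * (y / L) * (t : ℝ) ^ (-(7 / 4) : ℝ) := by
    have h1 : 2 * C1 * ((y + 1 : ℕ) : ℝ) / (q.totient * w) =
        (1 / (q.totient : ℝ)) * (2 * C1 * ((y + 1 : ℕ) : ℝ) / w) := by
      field_simp
    have h2 : 2 * C1 * ((y + 1 : ℕ) : ℝ) / w ≤ 1600 * C1 * (y / L) := by
      rw [div_le_iff₀ hw0]
      have h3 : ((y + 1 : ℕ) : ℝ) ≤ 2 * y := by push_cast; linarith
      have h4 : 1600 * C1 * (y / L) * (L / 400) ≤ 1600 * C1 * (y / L) * w :=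
        mul_le_mul_of_nonneg_left hwL (by positivity)
      have h5 : 1600 * C1 * (y / L) * (L / 400) = 4 * C1 * y := by
        field_simp
        ring
      have h6 : 2 * C1 * ((y + 1 : ℕ) : ℝ) ≤ 2 * C1 * (2 * y) :=
        mul_le_mul_of_nonneg_left h3 (by positivity)
      linarith
    rw [h1]
    calc (1 / (q.totient : ℝ)) * (2 * C1 * ((y + 1 : ℕ) : ℝ) / w)
        ≤ (Cτ * (t : ℝ) ^ (-(7 / 4) : ℝ)) * (1600 * C1 * (y / L)) :=
          mul_le_mul hphi h2 (by positivity) (by positivity)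
      _ = _ := by ring
  have hsecond : (2 : ℝ) ^ w ≤ 1 * (y / L) * (t : ℝ) ^ (-(7 / 4) : ℝ) := by
    have h1 : (20 * L) ^ (-(7 / 4) : ℝ) ≤ (t : ℝ) ^ (-(7 / 4) : ℝ) :=
      Real.rpow_le_rpow_of_nonpos ht0 htL (by norm_num)
    have h2 : (2 : ℝ) ^ w ≤ Real.exp (L / 2) := by
      refine (hpow w).trans (Real.exp_le_exp.2 ?_)
      linarith
    have h20 : (1 : ℝ) ≤ 20 * L := by linarith
    have h3 : (20 * L) ^ (7 / 4 : ℝ) ≤ (20 * L) ^ 2 := by
      have := Real.rpow_le_rpow_of_exponent_le h20 (show (7 / 4 : ℝ) ≤ 2 by norm_num)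
      have h4 : (20 * L) ^ (2 : ℝ) = (20 * L) ^ 2 := by
        have := Real.rpow_natCast (20 * L) 2
        push_cast at this
        exact this
      rw [h4] at this
      exact this
    have hp : 0 < (20 * L) ^ (7 / 4 : ℝ) := Real.rpow_pos_of_pos (by linarith) _
    have h5 : (2 : ℝ) ^ w * (L * (20 * L) ^ (7 / 4 : ℝ)) ≤ y := by
      have h6 : L * (20 * L) ^ (7 / 4 : ℝ) ≤ 8000 * L ^ 3 := by
        have h7 : L * (20 * L) ^ (7 / 4 : ℝ) ≤ L * (20 * L) ^ 2 :=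
          mul_le_mul_of_nonneg_left h3 hL0.le
        have h8 : L * (20 * L) ^ 2 = 400 * L ^ 3 := by ring
        have h9 : 0 ≤ L ^ 3 := by positivity
        linarith
      have h7 : (2 : ℝ) ^ w * (L * (20 * L) ^ (7 / 4 : ℝ)) ≤
          Real.exp (L / 2) * Real.exp (L / 2) :=
        mul_le_mul h2 (h6.trans g3) (by positivity) (Real.exp_pos _).le
      rw [← Real.exp_add, add_halves, hexp] at h7
      exact h7
    have h6 : (2 : ℝ) ^ w ≤ y / L * (20 * L) ^ (-(7 / 4) : ℝ) := by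
      rw [Real.rpow_neg (by linarith), ← div_eq_mul_inv, div_div, le_div_iff₀ (by positivity)]
      exact h5
    rw [one_mul]
    exact h6.trans (mul_le_mul_of_nonneg_left h1 (by positivity))
  calc (S.card : ℝ) ≤ 2 * C1 * ((y + 1 : ℕ) : ℝ) / (q.totient * w) + (2 : ℝ) ^ w := hcardR
    _ ≤ 1600 * C1 * Cτ * (y / L) * (t : ℝ) ^ (-(7 / 4) : ℝ) +
        1 * (y / L) * (t : ℝ) ^ (-(7 / 4) : ℝ) := add_le_add hfirst hsecond
    _ = _ := by ring

end Pool.Agent.H.MP_0ec261_nt.SP
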