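import Pool.Agent.H.MP_0ec261_nt.SP.Fa
import Pool.Agent.H.MP_0ec261_nt.SP.Ef

/-!
# Many `k` with `2 k - 1` prime have a bounded square part
-/

namespace Pool.Agent.H.MP_0ec261_nt.SP

open Finset

theorem KE_card_const : ∃ T : ℕ, 1 ≤ T ∧ ∃ y₀ : ℕ, ∀ y : ℕ, y₀ ≤ y →
    (y : ℝ) / (4 * Real.log y) ≤ ((KE y T).card : ℝ) := by
  classical
  obtain ⟨C, hC, y₂, hbt⟩ := bt
  obtain ⟨y₁, hy₁⟩ := cheb_low
  have hsm : Summable (fun n : ℕ => (n : ℝ) ^ (-(7 / 4) : ℝ)) :=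
    Real.summable_nat_rpow.2 (by norm_num)
  obtain ⟨s, hs⟩ := hsm.vanishing (Iio_mem_nhds (show (0 : ℝ) < 1 / (10 * C) by positivity))
  obtain ⟨T, hT⟩ : ∃ T, T = s.sup id + 1 := ⟨_, rfl⟩
  refine ⟨T, by omega, max (max y₁ y₂) 3, fun y hy => ?_⟩
  have hy3 : 3 ≤ y := (le_max_right _ _).trans hy
  have hlow := hy₁ y (((le_max_left _ _).trans (le_max_left _ _)).trans hy)
  have hbt' := hbt y (((le_max_right _ _).trans (le_max_left _ _)).trans hy)
  have hyR : (3 : ℝ) ≤ y := by exact_mod_cast hy3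
  have hlog1 : 1 ≤ Real.log y := by
    rw [Real.le_log_iff_exp_le (by linarith)]
    have := Real.exp_one_lt_d9
    linarith
  have hlog : 0 < Real.log y := by linarith
  obtain ⟨z, hz⟩ : ∃ z, z = ⌊20 * Real.log y⌋₊ := ⟨_, rfl⟩
  have hz1 : (z : ℝ) ≤ 20 * Real.log y := by
    rw [hz]
    exact Nat.floor_le (by positivity)
  have hz2 : 20 * Real.log y < (z : ℝ) + 1 := by
    rw [hz]
    exact Nat.lt_floor_add_one _
  have hzl : 19 * Real.log y ≤ z := by linarith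
  have hzR : (0 : ℝ) < z := by linarith
  have hz0 : z ≠ 0 := by
    rintro rfl
    norm_num at hzR
  obtain ⟨M, hM⟩ : ∃ M, M = (y + 1) / 2 := ⟨_, rfl⟩
  -- all the candidates
  have hA : ((Icc 3 y).filter Nat.Prime).card ≤
      ((Icc 2 y).filter (fun k => (2 * k - 1).Prime ∧ 2 * k - 1 ≤ y)).card := by
    refine card_le_card_of_injOn (fun q => (q + 1) / 2) ?_ ?_
    · intro q hq
      have hq' := mem_filter.1 (mem_coe.1 hq)
      rw [mem_Icc] at hq'
      obtain ⟨⟨h1, h2⟩, h3⟩ := hq'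
      have hodd : q % 2 = 1 := h3.eq_two_or_odd.resolve_left (by omega)
      have h4 : 2 * ((q + 1) / 2) - 1 = q := by omega
      refine mem_coe.2 (mem_filter.2 ⟨mem_Icc.2 ⟨?_, ?_⟩, ?_, ?_⟩)
      · show 2 ≤ (q + 1) / 2
        omega
      · show (q + 1) / 2 ≤ y
        omega
      · rw [h4]
        exact h3
      · rw [h4]
        exact h2
    · intro q hq q' hq' he
      have h1 := mem_filter.1 (mem_coe.1 hq)
      have h2 := mem_filter.1 (mem_coe.1 hq')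
      rw [mem_Icc] at h1 h2
      have e1 : q % 2 = 1 := h1.2.eq_two_or_odd.resolve_left (by omega)
      have e2 : q' % 2 = 1 := h2.2.eq_two_or_odd.resolve_left (by omega)
      have he' : (q + 1) / 2 = (q' + 1) / 2 := he
      omega
  have hB : (Icc 2 y).filter (fun k => (2 * k - 1).Prime ∧ 2 * k - 1 ≤ y) ⊆
      (KE y T ∪ (Ioc T z).biUnion (fun t => (Icc 2 y).filter
        fun k => (2 * k - 1).Prime ∧ 2 * k - 1 ≤ y ∧ t ^ 2 ∣ k)) ∪
        (Ioc z M).biUnion (fun t => (Ioc 0 M).filter (fun k => t ^ 2 ∣ k)) := by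
    intro k hk
    rw [mem_filter, mem_Icc] at hk
    obtain ⟨⟨h1, h2⟩, h3, h4⟩ := hk
    by_cases h5 : ∀ t, t ^ 2 ∣ k → t ≤ T
    · refine mem_union_left _ (mem_union_left _ ?_)
      rw [KE, mem_filter, mem_Icc]
      exact ⟨⟨h1, h2⟩, h3, h4, h5⟩
    · push Not at h5
      obtain ⟨t, ht1, ht2⟩ := h5
      have hk0 : 0 < k := by omega
      have h6 : t ^ 2 ≤ k := Nat.le_of_dvd hk0 ht1
      have h7 : t ≤ t ^ 2 := Nat.le_self_pow two_ne_zero t
      rcases le_or_gt t z with h8 | h8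
      · refine mem_union_left _ (mem_union_right _ ?_)
        rw [mem_biUnion]
        exact ⟨t, mem_Ioc.2 ⟨ht2, h8⟩, mem_filter.2 ⟨mem_Icc.2 ⟨h1, h2⟩, h3, h4, ht1⟩⟩
      · refine mem_union_right _ ?_
        rw [mem_biUnion]
        exact ⟨t, mem_Ioc.2 ⟨h8, by omega⟩, mem_filter.2 ⟨mem_Ioc.2 ⟨hk0, by omega⟩, ht1⟩⟩
  have hcard : ((Icc 3 y).filter Nat.Prime).card ≤ ((KE y T).card +
      ∑ t ∈ Ioc T z, ((Icc 2 y).filter
        fun k => (2 * k - 1).Prime ∧ 2 * k - 1 ≤ y ∧ t ^ 2 ∣ k).card) +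
      ∑ t ∈ Ioc z M, M / t ^ 2 := by
    refine hA.trans ((card_le_card hB).trans ((card_union_le _ _).trans ?_))
    refine Nat.add_le_add ((card_union_le _ _).trans (Nat.add_le_add_left card_biUnion_le _)) ?_
    refine card_biUnion_le.trans (le_of_eq ?_)
    exact Finset.sum_congr rfl fun t _ => Nat.Ioc_filter_dvd_card_eq_div M (t ^ 2)
  have hsum : ((∑ t ∈ Ioc z M, M / t ^ 2 : ℕ) : ℝ) ≤ (M : ℝ) * (z : ℝ)⁻¹ := by
    push_cast
    have h1 : ∑ t ∈ Ioc z M, ((M / t ^ 2 : ℕ) : ℝ) ≤ (M : ℝ) * ∑ t ∈ Ioc z M, ((t : ℝ) ^ 2)⁻¹ := by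
      rw [Finset.mul_sum]
      refine Finset.sum_le_sum fun t _ => ?_
      refine Nat.cast_div_le.trans (le_of_eq ?_)
      push_cast
      rw [div_eq_mul_inv]
    refine h1.trans (mul_le_mul_of_nonneg_left ?_ (Nat.cast_nonneg M))
    rcases le_total z M with h2 | h2
    · refine (sum_Ioc_inv_sq_le_sub hz0 h2).trans ?_
      have h3 : (0 : ℝ) ≤ (M : ℝ)⁻¹ := by positivity
      linarith
    · rw [Finset.Ioc_eq_empty (by omega), Finset.sum_empty]
      positivity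
  have hmid : ((∑ t ∈ Ioc T z, ((Icc 2 y).filter
      fun k => (2 * k - 1).Prime ∧ 2 * k - 1 ≤ y ∧ t ^ 2 ∣ k).card : ℕ) : ℝ) ≤
      (y : ℝ) / (10 * Real.log y) := by
    push_cast
    have h1 : ∑ t ∈ Ioc T z, ((((Icc 2 y).filter
        fun k => (2 * k - 1).Prime ∧ 2 * k - 1 ≤ y ∧ t ^ 2 ∣ k).card : ℕ) : ℝ) ≤
        ∑ t ∈ Ioc T z, C * (y / Real.log y) * (t : ℝ) ^ (-(7 / 4) : ℝ) := by
      refine Finset.sum_le_sum fun t ht => ?_
      rw [mem_Ioc] at ht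
      refine hbt' t (by omega) ?_
      have h2 : (t : ℝ) ≤ z := by exact_mod_cast ht.2
      linarith
    refine h1.trans ?_
    rw [← Finset.mul_sum]
    have h2 : ∑ t ∈ Ioc T z, (t : ℝ) ^ (-(7 / 4) : ℝ) < 1 / (10 * C) := by
      have h3 : Disjoint (Ioc T z) s := by
        rw [Finset.disjoint_left]
        intro t ht hts
        rw [mem_Ioc] at ht
        have h4 : t ≤ s.sup id := Finset.le_sup (f := id) hts
        omega
      exact hs _ h3
    have h3 : 0 ≤ C * ((y : ℝ) / Real.log y) := by positivity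
    calc C * ((y : ℝ) / Real.log y) * ∑ t ∈ Ioc T z, (t : ℝ) ^ (-(7 / 4) : ℝ)
        ≤ C * ((y : ℝ) / Real.log y) * (1 / (10 * C)) := mul_le_mul_of_nonneg_left h2.le h3
      _ = (y : ℝ) / (10 * Real.log y) := by
          field_simp
  have hMR : (M : ℝ) ≤ ((y : ℝ) + 1) / 2 := by
    have h1 : 2 * M ≤ y + 1 := by omega
    have h2 : ((2 * M : ℕ) : ℝ) ≤ ((y + 1 : ℕ) : ℝ) := by exact_mod_cast h1
    push_cast at h2
    linarith
  have hMz : (M : ℝ) * (z : ℝ)⁻¹ ≤ ((y : ℝ) + 1) / (38 * Real.log y) := by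
    rw [← div_eq_mul_inv, div_le_div_iff₀ hzR (by positivity)]
    have h1 : (M : ℝ) * (38 * Real.log y) ≤ ((y : ℝ) + 1) / 2 * (38 * Real.log y) :=
      mul_le_mul_of_nonneg_right hMR (by positivity)
    have h2 : ((y : ℝ) + 1) * (19 * Real.log y) ≤ ((y : ℝ) + 1) * z :=
      mul_le_mul_of_nonneg_left hzl (by positivity)
    linarith
  have hcR : (((Icc 3 y).filter Nat.Prime).card : ℝ) ≤ ((KE y T).card : ℝ) +
      ((∑ t ∈ Ioc T z, ((Icc 2 y).filter
        fun k => (2 * k - 1).Prime ∧ 2 * k - 1 ≤ y ∧ t ^ 2 ∣ k).card : ℕ) : ℝ) +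
      ((∑ t ∈ Ioc z M, M / t ^ 2 : ℕ) : ℝ) := by exact_mod_cast hcard
  have hfin : (y : ℝ) / (4 * Real.log y) + (y : ℝ) / (10 * Real.log y) +
      ((y : ℝ) + 1) / (38 * Real.log y) ≤ (y : ℝ) / (2 * Real.log y) := by
    have e1 : (y : ℝ) / (4 * Real.log y) + (y : ℝ) / (10 * Real.log y) +
        ((y : ℝ) + 1) / (38 * Real.log y) = (143 * (y : ℝ) + 10) / (380 * Real.log y) := by
      field_simp
      ring
    have e2 : (y : ℝ) / (2 * Real.log y) = (190 * (y : ℝ)) / (380 * Real.log y) := by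
      field_simp
      ring
    rw [e1, e2]
    exact div_le_div_of_nonneg_right (by linarith) (by positivity)
  linarith

end Pool.Agent.H.MP_0ec261_nt.SP
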