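import Mathlib

/-!
# The choice of the parameter, even numbers, second version
-/

namespace Pool.Agent.H.MP_0ec261_nt.SP

open Filter in
private theorem Fc_core {K T L l y : ℝ} (hl : l = Real.log L) (hK : K = 200 * T) (hT : 1 ≤ T)
    (hL : 200 ≤ L) (hl2 : K ≤ l) (hy1 : y ≤ K * L * l) (hy2 : K * L * l < y + 1) :
    L ≤ y ∧ 1 ≤ Real.log y ∧ 16 * T * L ≤ y / (4 * Real.log y) ∧
      128 * y ^ 2 * L ≤ 128 * K ^ 2 * L ^ 5 := by
  have hL0 : 0 < L := by linarith
  have hK2 : 200 ≤ K := by linarith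
  have hK0 : 0 < K := by linarith
  have hl0 : 0 < l := by linarith
  have hlg : 200 ≤ l := by linarith
  have hKL : 200 * L ≤ K * L := mul_le_mul_of_nonneg_right hK2 hL0.le
  have hKl : 200 * (K * L) ≤ K * L * l := by
    have := mul_le_mul_of_nonneg_left hlg (by positivity : 0 ≤ K * L)
    linarith
  have hy0 : 0 < y := by linarith
  have hLy : L ≤ y := by linarith
  have hly : 1 ≤ Real.log y := by
    rw [Real.le_log_iff_exp_le hy0]
    have h := Real.exp_one_lt_d9
    linarith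
  have h1 : Real.log y ≤ Real.log (K * L * l) := Real.log_le_log hy0 hy1
  have h2 : Real.log (K * L * l) = Real.log K + Real.log L + Real.log l := by
    rw [Real.log_mul (by positivity) hl0.ne', Real.log_mul hK0.ne' hL0.ne']
  have key : ∀ z : ℝ, 0 < z → Real.log z ≤ z / 8 + 6 := by
    intro z hz
    have h5 := Real.log_le_sub_one_of_pos (show (0 : ℝ) < z / 8 by positivity)
    have h6 := Real.log_le_sub_one_of_pos (show (0 : ℝ) < 8 by norm_num)
    have h7 : Real.log z = Real.log (z / 8) + Real.log 8 := by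
      rw [← Real.log_mul (by positivity) (by norm_num)]
      congr 1
      ring
    linarith
  have h3 := key K hK0
  have h4 := key l hl0
  have h5 : Real.log y ≤ 2 * l := by
    rw [h2, ← hl] at h1
    linarith
  have h6 : l ≤ L := by
    have h := Real.log_le_sub_one_of_pos hL0
    rw [← hl] at h
    linarith
  refine ⟨hLy, hly, ?_, ?_⟩
  · rw [le_div_iff₀ (by linarith)]
    have hTL : 0 < T * L := by positivity
    have h7 : T * L * Real.log y ≤ T * L * (2 * l) := mul_le_mul_of_nonneg_left h5 hTL.le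
    have h8 : 16 * T * L * (4 * Real.log y) = 64 * (T * L * Real.log y) := by ring
    have h9 : K * L * l = 200 * (T * L * l) := by rw [hK]; ring
    have h10 : T * L * (2 * l) = 2 * (T * L * l) := by ring
    have h11 : 200 * 200 ≤ K * L := by nlinarith
    rw [h8]
    linarith
  · have h7 : y ≤ K * L ^ 2 := by
      have h8 : K * L * l ≤ K * L * L := mul_le_mul_of_nonneg_left h6 (by positivity)
      nlinarith
    have h8 : y ^ 2 ≤ (K * L ^ 2) ^ 2 := pow_le_pow_left₀ hy0.le h7 2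
    calc 128 * y ^ 2 * L ≤ 128 * (K * L ^ 2) ^ 2 * L :=
          mul_le_mul_of_nonneg_right (mul_le_mul_of_nonneg_left h8 (by norm_num)) hL0.le
      _ = 128 * K ^ 2 * L ^ 5 := by ring

open Filter in
theorem num_const (T y₀ : ℕ) (hT : 1 ≤ T) : ∃ N₀ : ℕ, ∀ N : ℕ, N₀ ≤ N → ∀ y : ℕ,
    y = ⌊(200 * T : ℝ) * Real.log N * Real.log (Real.log N)⌋₊ →
      y₀ ≤ y ∧ 1 ≤ Real.log N ∧ 1 ≤ Real.log y ∧
      16 * (T : ℝ) * Real.log N ≤ y / (4 * Real.log y) ∧
      128 * (y : ℝ) ^ 2 * Real.log N ≤ N := by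
  have hT' : (1 : ℝ) ≤ T := by exact_mod_cast hT
  obtain ⟨K, hK⟩ : ∃ K : ℝ, K = 200 * (T : ℝ) := ⟨_, rfl⟩
  have hK0 : 0 < K := by linarith
  have hL : Tendsto (fun N : ℕ => Real.log N) atTop atTop :=
    Real.tendsto_log_atTop.comp tendsto_natCast_atTop_atTop
  have hl : Tendsto (fun N : ℕ => Real.log (Real.log N)) atTop atTop :=
    Real.tendsto_log_atTop.comp hL
  have h5 : ∀ᶠ N : ℕ in atTop, ‖Real.log (N : ℝ) ^ 5‖ ≤ 1 / (128 * K ^ 2) * ‖id (N : ℝ)‖ :=
    tendsto_natCast_atTop_atTop.eventually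
      ((Real.isLittleO_pow_log_id_atTop (n := 5)).bound (by positivity : (0 : ℝ) < 1 / (128 * K ^ 2)))
  obtain ⟨N₀, hN₀⟩ := eventually_atTop.1 ((hL.eventually_ge_atTop ((y₀ : ℝ) + 200)).and
    ((hl.eventually_ge_atTop K).and h5))
  refine ⟨N₀, fun N hN y hy => ?_⟩
  obtain ⟨a1, a2, a3⟩ := hN₀ N hN
  have hy0 : (0 : ℝ) ≤ y₀ := Nat.cast_nonneg _
  have hLp : 200 ≤ Real.log (N : ℝ) := by linarith
  rw [← hK] at hy
  have hnn : 0 ≤ K * Real.log (N : ℝ) * Real.log (Real.log N) :=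
    mul_nonneg (mul_nonneg hK0.le (by linarith)) (by linarith)
  have hy1 : (y : ℝ) ≤ K * Real.log N * Real.log (Real.log N) := by
    rw [hy]
    exact Nat.floor_le hnn
  have hy2 : K * Real.log N * Real.log (Real.log N) < (y : ℝ) + 1 := by
    rw [hy]
    exact Nat.lt_floor_add_one _
  obtain ⟨b1, b2, b3, b4⟩ := Fc_core rfl hK hT' hLp a2 hy1 hy2
  refine ⟨?_, by linarith, b2, b3, b4.trans ?_⟩
  · have h : (y₀ : ℝ) ≤ y := by linarith
    exact_mod_cast h
  · have h1 : Real.log (N : ℝ) ^ 5 ≤ 1 / (128 * K ^ 2) * (N : ℝ) := by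
      have h2 := le_trans (le_abs_self _) a3
      simpa using h2
    have h2 : 128 * K ^ 2 * Real.log (N : ℝ) ^ 5 ≤ 128 * K ^ 2 * (1 / (128 * K ^ 2) * (N : ℝ)) :=
      mul_le_mul_of_nonneg_left h1 (by positivity)
    have h3 : 128 * K ^ 2 * (1 / (128 * K ^ 2) * (N : ℝ)) = N := by
      field_simp
    linarith

end Pool.Agent.H.MP_0ec261_nt.SP
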