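import Pool.Agent.H.MP_0ec261_nt.Jac

/-!
# Sums of a Jacobi symbol over odd moduli
-/

namespace Pool.Agent.H.MP_0ec261_nt.SP

open Finset NumberTheorySymbols

private theorem Sa_rec {D : ℕ} (hD : Odd D) (i : ℕ) :
    J((D : ℤ) | 2 * i + 1) = (-1) ^ (D / 2 * i) * J(((2 * i + 1 : ℕ) : ℤ) | D) := by
  have h := jacobiSym.quadratic_reciprocity hD (b := 2 * i + 1) ⟨i, rfl⟩
  have h2 : (2 * i + 1) / 2 = i := by omega
  rwa [h2] at h

private theorem Sa_per (D i : ℕ) :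
    J((D : ℤ) | 2 * (i + 2 * D) + 1) = J((D : ℤ) | 2 * i + 1) := by
  rw [jacobiSym.mod_right' D (b := 2 * (i + 2 * D) + 1) ⟨_, rfl⟩,
    jacobiSym.mod_right' D (b := 2 * i + 1) ⟨_, rfl⟩]
  congr 1
  have h : 2 * (i + 2 * D) + 1 = (2 * i + 1) + (4 * D) * 1 := by ring
  rw [h, Nat.add_mul_mod_self_left]

private theorem Sa_g {D : ℕ} (hD : Odd D) (hsq : ¬ IsSquare D) :
    ∑ i ∈ range D, J(((2 * i + 1 : ℕ) : ℤ) | D) = 0 := by
  obtain ⟨k, rfl⟩ := id hD
  have h1 : ∀ i : ℕ, J(((2 * i + 1 : ℕ) : ℤ) | 2 * k + 1) =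
      J((2 : ℤ) | 2 * k + 1) * J(((k + 1 + i : ℕ) : ℤ) | 2 * k + 1) := by
    intro i
    rw [← jacobiSym.mul_left]
    have h2 : (2 : ℤ) * ((k + 1 + i : ℕ) : ℤ) = ((2 * i + 1 + (2 * k + 1) : ℕ) : ℤ) := by
      push_cast
      ring
    rw [h2]
    exact (jac_periodic (2 * k + 1) (2 * i + 1)).symm
  rw [sum_congr rfl fun i _ => h1 i, ← mul_sum]
  have h3 := sum_shift (f := fun x : ℕ => J((x : ℤ) | 2 * k + 1))
    (fun x => jac_periodic (2 * k + 1) x) (k + 1)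
  rw [h3, sum_period hD hsq, mul_zero]

theorem sum_odd {D : ℕ} (hD : Odd D) (hsq : ¬ IsSquare D) (X : ℕ) :
    |∑ i ∈ range X, J((D : ℤ) | 2 * i + 1)| ≤ 2 * D := by
  have h0 : ∑ i ∈ range (2 * D), J((D : ℤ) | 2 * i + 1) = 0 := by
    rw [two_mul, sum_range_add]
    rcases Nat.even_or_odd (D / 2) with h | h
    · have h1 : ∀ i, J((D : ℤ) | 2 * i + 1) = J(((2 * i + 1 : ℕ) : ℤ) | D) := by
        intro i
        rw [Sa_rec hD, pow_mul, h.neg_one_pow, one_pow, one_mul]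
      have h2 : ∀ i, J((D : ℤ) | 2 * (D + i) + 1) = J((D : ℤ) | 2 * i + 1) := by
        intro i
        rw [h1, h1]
        have h3 : 2 * (D + i) + 1 = (2 * i + 1 + D) + D := by ring
        rw [h3, jac_periodic, jac_periodic]
      rw [sum_congr rfl fun i _ => h2 i, sum_congr rfl fun i _ => h1 i, Sa_g hD hsq, add_zero]
    · have h1 : ∀ i, J((D : ℤ) | 2 * i + 1) = (-1) ^ i * J(((2 * i + 1 : ℕ) : ℤ) | D) := by
        intro i
        rw [Sa_rec hD, pow_mul, h.neg_one_pow]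
      have h2 : ∀ i, J((D : ℤ) | 2 * (D + i) + 1) = - J((D : ℤ) | 2 * i + 1) := by
        intro i
        rw [h1, h1]
        have h3 : 2 * (D + i) + 1 = (2 * i + 1 + D) + D := by ring
        rw [h3, jac_periodic, jac_periodic, pow_add, hD.neg_one_pow]
        ring
      rw [sum_congr rfl fun i _ => h2 i, sum_neg_distrib, add_neg_cancel]
  have hD0 := hD.pos
  have h := sum_range_le (f := fun i => J((D : ℤ) | 2 * i + 1)) (D := 2 * D) (by omega)
    (fun x => Sa_per D x) (fun x => abs_jac_le _ _) h0 0 X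
  simp only [zero_add] at h
  push_cast at h
  exact h

end Pool.Agent.H.MP_0ec261_nt.SP
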