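import Pool.Agent.H.MP_0ec261_nt.SP.Sa

/-!
# Mean square over odd moduli
-/

namespace Pool.Agent.H.MP_0ec261_nt.SP

open Finset NumberTheorySymbols

private theorem Sb_abs (a : ℤ) (n : ℕ) : |(J(a | n) : ℝ)| ≤ 1 := by
  rcases jacobiSym.trichotomy a n with h | h | h <;> rw [h] <;> norm_num

private theorem Sb_diag (q X : ℕ) :
    |∑ i ∈ range X, (J((q : ℤ) | 2 * i + 1) : ℝ) * (J((q : ℤ) | 2 * i + 1) : ℝ)| ≤ X := by
  refine (Finset.abs_sum_le_sum_abs _ _).trans ?_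
  calc ∑ i ∈ range X, |(J((q : ℤ) | 2 * i + 1) : ℝ) * (J((q : ℤ) | 2 * i + 1) : ℝ)|
      ≤ ∑ i ∈ range X, (1 : ℝ) := by
        refine Finset.sum_le_sum fun i _ => ?_
        rw [abs_mul]
        have h := Sb_abs (q : ℤ) (2 * i + 1)
        have h0 := abs_nonneg ((J((q : ℤ) | 2 * i + 1) : ℝ))
        nlinarith
    _ = X := by simp

private theorem Sb_off {q q' y : ℕ} (hq : q.Prime) (hq2 : q ≠ 2) (hqy : q ≤ y) (hq' : q'.Prime)
    (hq2' : q' ≠ 2) (hqy' : q' ≤ y) (hne : q ≠ q') (X : ℕ) :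
    |∑ i ∈ range X, (J((q : ℤ) | 2 * i + 1) : ℝ) * (J((q' : ℤ) | 2 * i + 1) : ℝ)| ≤
      2 * (y : ℝ) ^ 2 := by
  have hodd : Odd (q * q') :=
    Nat.odd_mul.2 ⟨hq.odd_of_ne_two hq2, hq'.odd_of_ne_two hq2'⟩
  have hsq : ¬ IsSquare (q * q') := by
    rintro ⟨r, hr⟩
    have h1 : q ∣ r * r := by rw [← hr]; exact dvd_mul_right q q'
    have h2 : q ∣ r := by
      rcases hq.dvd_mul.1 h1 with h | h <;> exact h
    have h3 : q * q ∣ q * q' := by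
      rw [hr]
      exact mul_dvd_mul h2 h2
    have h4 : q ∣ q' := Nat.dvd_of_mul_dvd_mul_left hq.pos h3
    exact hne ((Nat.prime_dvd_prime_iff_eq hq hq').1 h4)
  have h := sum_odd hodd hsq X
  have h1 : ∑ i ∈ range X, (J((q : ℤ) | 2 * i + 1) : ℝ) * (J((q' : ℤ) | 2 * i + 1) : ℝ) =
      ((∑ i ∈ range X, J(((q * q' : ℕ) : ℤ) | 2 * i + 1) : ℤ) : ℝ) := by
    rw [Int.cast_sum]
    refine Finset.sum_congr rfl fun i _ => ?_
    rw [Nat.cast_mul, jacobiSym.mul_left, Int.cast_mul]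
  rw [h1, ← Int.cast_abs]
  have h2 : ((|∑ i ∈ range X, J(((q * q' : ℕ) : ℤ) | 2 * i + 1)| : ℤ) : ℝ) ≤
      ((2 * ((q * q' : ℕ) : ℤ) : ℤ) : ℝ) := by exact_mod_cast h
  refine h2.trans ?_
  push_cast
  have h3 : (q : ℝ) ≤ y := by exact_mod_cast hqy
  have h4 : (q' : ℝ) ≤ y := by exact_mod_cast hqy'
  have h5 : (q : ℝ) * q' ≤ y * y := mul_le_mul h3 h4 (Nat.cast_nonneg _) (Nat.cast_nonneg _)
  nlinarith

theorem meansq {K : Finset ℕ} {y : ℕ} (hK : ∀ q ∈ K, q.Prime ∧ q ≠ 2 ∧ q ≤ y) {s : ℕ → ℝ}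
    (hs : ∀ q ∈ K, |s q| ≤ 1) (X : ℕ) :
    ∑ i ∈ range X, (∑ q ∈ K, s q * (J((q : ℤ) | 2 * i + 1) : ℝ)) ^ 2 ≤
      X * K.card + 2 * (y : ℝ) ^ 2 * (K.card : ℝ) ^ 2 := by
  classical
  have h1 : ∑ i ∈ range X, (∑ q ∈ K, s q * (J((q : ℤ) | 2 * i + 1) : ℝ)) ^ 2 =
      ∑ q ∈ K, ∑ q' ∈ K, s q * s q' *
        ∑ i ∈ range X, (J((q : ℤ) | 2 * i + 1) : ℝ) * (J((q' : ℤ) | 2 * i + 1) : ℝ) := by
    calc ∑ i ∈ range X, (∑ q ∈ K, s q * (J((q : ℤ) | 2 * i + 1) : ℝ)) ^ 2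
        = ∑ i ∈ range X, ∑ q ∈ K, ∑ q' ∈ K, s q * s q' *
            ((J((q : ℤ) | 2 * i + 1) : ℝ) * (J((q' : ℤ) | 2 * i + 1) : ℝ)) := by
          refine Finset.sum_congr rfl fun i _ => ?_
          rw [sq, Finset.sum_mul_sum]
          refine Finset.sum_congr rfl fun q _ => Finset.sum_congr rfl fun q' _ => ?_
          ring
      _ = ∑ q ∈ K, ∑ i ∈ range X, ∑ q' ∈ K, s q * s q' *
            ((J((q : ℤ) | 2 * i + 1) : ℝ) * (J((q' : ℤ) | 2 * i + 1) : ℝ)) :=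
          Finset.sum_comm
      _ = _ := by
          refine Finset.sum_congr rfl fun q _ => ?_
          rw [Finset.sum_comm]
          refine Finset.sum_congr rfl fun q' _ => ?_
          rw [Finset.mul_sum]
  rw [h1]
  have h2 : ∀ q ∈ K, ∀ q' ∈ K, s q * s q' *
      ∑ i ∈ range X, (J((q : ℤ) | 2 * i + 1) : ℝ) * (J((q' : ℤ) | 2 * i + 1) : ℝ) ≤
      (if q = q' then (X : ℝ) else 0) + 2 * (y : ℝ) ^ 2 := by
    intro q hq q' hq'
    have h3 : |∑ i ∈ range X, (J((q : ℤ) | 2 * i + 1) : ℝ) * (J((q' : ℤ) | 2 * i + 1) : ℝ)| ≤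
        (if q = q' then (X : ℝ) else 0) + 2 * (y : ℝ) ^ 2 := by
      by_cases hqq : q = q'
      · subst hqq
        rw [if_pos rfl]
        have h4 := Sb_diag q X
        have h5 : (0 : ℝ) ≤ 2 * (y : ℝ) ^ 2 := by positivity
        linarith
      · rw [if_neg hqq, zero_add]
        exact Sb_off (hK q hq).1 (hK q hq).2.1 (hK q hq).2.2 (hK q' hq').1 (hK q' hq').2.1
          (hK q' hq').2.2 hqq X
    refine (le_abs_self _).trans ?_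
    rw [abs_mul, abs_mul]
    have h4 : |s q| * |s q'| ≤ 1 := mul_le_one₀ (hs q hq) (abs_nonneg _) (hs q' hq')
    calc |s q| * |s q'| *
        |∑ i ∈ range X, (J((q : ℤ) | 2 * i + 1) : ℝ) * (J((q' : ℤ) | 2 * i + 1) : ℝ)|
        ≤ 1 * |∑ i ∈ range X, (J((q : ℤ) | 2 * i + 1) : ℝ) * (J((q' : ℤ) | 2 * i + 1) : ℝ)| :=
          mul_le_mul_of_nonneg_right h4 (abs_nonneg _)
      _ ≤ _ := by rw [one_mul]; exact h3
  refine (Finset.sum_le_sum fun q hq => Finset.sum_le_sum fun q' hq' => h2 q hq q' hq').trans ?_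
  have h3 : ∀ q ∈ K, ∑ q' ∈ K, ((if q = q' then (X : ℝ) else 0) + 2 * (y : ℝ) ^ 2) =
      X + K.card * (2 * (y : ℝ) ^ 2) := by
    intro q hq
    rw [Finset.sum_add_distrib, Finset.sum_ite_eq, if_pos hq, Finset.sum_const, nsmul_eq_mul]
  rw [Finset.sum_congr rfl h3, Finset.sum_const, nsmul_eq_mul]
  apply le_of_eq
  ring

end Pool.Agent.H.MP_0ec261_nt.SP
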