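import Pool.Agent.H.MP_711652_nt.PairSieve

/-!
# Average of the square of the singular series, and the pair sieve for all shifts
-/

namespace Pool.Agent.H.MP_0ec261_nt.SP

open Finset Pool.Agent.H.MP_711652_nt

private lemma Sd_sum_prod_le (b : ℕ) :
    ∑ h ∈ Icc 1 b, ∏ p ∈ h.primeFactors, (1 + 30 / (p : ℝ)) ≤ b * Real.exp 30 := by
  set Pr := (Icc 1 b).filter Nat.Prime with hPr
  have h1 : ∀ h ∈ Icc 1 b, ∏ p ∈ h.primeFactors, (1 + 30 / (p : ℝ)) =
      ∑ T ∈ Pr.powerset, if T ⊆ h.primeFactors then ∏ p ∈ T, (30 / (p : ℝ)) else 0 := by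
    intro h hh
    rw [mem_Icc] at hh
    rw [prod_one_add, ← sum_filter]
    apply sum_congr _ (fun _ _ => rfl)
    ext T
    rw [mem_powerset, mem_filter, mem_powerset]
    constructor
    · intro hT
      refine ⟨fun p hp => ?_, hT⟩
      have hp' := hT hp
      rw [hPr, mem_filter, mem_Icc]
      have h2 := Nat.prime_of_mem_primeFactors hp'
      have h3 := Nat.le_of_dvd (by omega) (Nat.dvd_of_mem_primeFactors hp')
      exact ⟨⟨h2.pos, by omega⟩, h2⟩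
    · exact fun hT => hT.2
  rw [sum_congr rfl h1, sum_comm]
  have h2 : ∀ T ∈ Pr.powerset, (∑ h ∈ Icc 1 b,
      if T ⊆ h.primeFactors then ∏ p ∈ T, (30 / (p : ℝ)) else 0) ≤ b * ∏ p ∈ T, (30 / (p : ℝ) ^ 2) := by
    intro T hT
    rw [mem_powerset] at hT
    have hTp : ∀ p ∈ T, p.Prime := fun p hp => (mem_filter.1 (hT hp)).2
    rw [← sum_filter, sum_const, nsmul_eq_mul]
    have hpos : 0 < ∏ p ∈ T, p := prod_pos (fun p hp => (hTp p hp).pos)
    have hcard : (((Icc 1 b).filter (fun h => T ⊆ h.primeFactors)).card : ℝ) ≤ b / ((∏ p ∈ T, p : ℕ) : ℝ) := by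
      have hsub : (Icc 1 b).filter (fun h => T ⊆ h.primeFactors) ⊆
          (Ioc 0 b).filter (fun h => (∏ p ∈ T, p) ∣ h) := by
        intro h hh
        rw [mem_filter, mem_Icc] at hh
        rw [mem_filter, mem_Ioc]
        refine ⟨by omega, ?_⟩
        exact (prod_dvd_prod_of_subset _ _ _ hh.2).trans (Nat.prod_primeFactors_dvd h)
      have h3 := card_le_card hsub
      rw [Nat.Ioc_filter_dvd_card_eq_div] at h3
      calc (((Icc 1 b).filter (fun h => T ⊆ h.primeFactors)).card : ℝ) ≤ ((b / ∏ p ∈ T, p : ℕ) : ℝ) := by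
            exact_mod_cast h3
        _ ≤ _ := Nat.cast_div_le
    have hprod0 : 0 ≤ ∏ p ∈ T, (30 / (p : ℝ)) := prod_nonneg (fun p _ => by positivity)
    calc _ ≤ (b / ((∏ p ∈ T, p : ℕ) : ℝ)) * ∏ p ∈ T, (30 / (p : ℝ)) :=
          mul_le_mul_of_nonneg_right hcard hprod0
      _ = b * ∏ p ∈ T, (30 / (p : ℝ) ^ 2) := by
        rw [Nat.cast_prod, div_mul_eq_mul_div, mul_div_assoc, ← prod_div_distrib]
        congr 1
        apply prod_congr rfl
        intro p _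
        rw [div_div, sq]
  refine (sum_le_sum h2).trans ?_
  rw [← mul_sum, ← prod_one_add]
  apply mul_le_mul_of_nonneg_left _ (Nat.cast_nonneg b)
  have h3 : ∏ p ∈ Pr, (1 + 30 / (p : ℝ) ^ 2) ≤ Real.exp (∑ p ∈ Pr, 30 / (p : ℝ) ^ 2) := by
    rw [Real.exp_sum]
    apply prod_le_prod
    · intro p _; positivity
    · intro p _
      rw [add_comm]
      exact Real.add_one_le_exp _
  refine h3.trans ?_
  rw [Real.exp_le_exp]
  have h4 : ∑ p ∈ Pr, 30 / (p : ℝ) ^ 2 = 30 * ∑ p ∈ Pr, ((p : ℝ) ^ 2)⁻¹ := by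
    rw [mul_sum]
    apply sum_congr rfl
    intro p _
    rw [div_eq_mul_inv]
  rw [h4]
  have h5 : ∑ p ∈ Pr, ((p : ℝ) ^ 2)⁻¹ ≤ ∑ p ∈ Ioo 1 (b + 1), ((p : ℝ) ^ 2)⁻¹ := by
    apply sum_le_sum_of_subset_of_nonneg
    · intro p hp
      rw [hPr, mem_filter, mem_Icc] at hp
      rw [mem_Ioo]
      have := hp.2.one_lt
      omega
    · intro p _ _; positivity
  have h6 := sum_Ioo_inv_sq_le (α := ℝ) 1 (b + 1)
  have h7 : (2 : ℝ) / (((1 : ℕ) : ℝ) + 1) = 1 := by norm_num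
  linarith

theorem sum_prod_sq (b : ℕ) :
    ∑ h ∈ Icc 1 b, (∏ p ∈ h.primeFactors, (1 + 6 / (p : ℝ))) ^ 2 ≤ b * Real.exp 30 := by
  refine le_trans (sum_le_sum fun h _ => ?_) (Sd_sum_prod_le b)
  rw [← prod_pow]
  apply prod_le_prod
  · intro p _
    positivity
  · intro p hp
    have hp' := Nat.prime_of_mem_primeFactors hp
    have hp2 : (2 : ℝ) ≤ p := by exact_mod_cast hp'.two_le
    have hp0 : (0 : ℝ) < p := by linarith
    have h1 : (1 + 30 / (p : ℝ)) - (1 + 6 / (p : ℝ)) ^ 2 = 18 * (p - 2) / (p : ℝ) ^ 2 := by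
      field_simp
      ring
    have h2 : 0 ≤ 18 * ((p : ℝ) - 2) / (p : ℝ) ^ 2 :=
      div_nonneg (mul_nonneg (by norm_num) (sub_nonneg.2 hp2)) (sq_nonneg _)
    linarith

end Pool.Agent.H.MP_0ec261_nt.SP
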