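import Pool.Agent.H.MP_0ec261_nt.SP.Sd
import Pool.Agent.H.MP_0ec261_nt.SP.Se

/-!
# The sum over pairs of pairs
-/

namespace Pool.Agent.H.MP_0ec261_nt.SP

open Finset Pool.Agent.H.MP_711652_nt

private theorem Sf_pos (h : ℕ) : 0 ≤ ∏ p ∈ h.primeFactors, (1 + 6 / (p : ℝ)) :=
  Finset.prod_nonneg fun p _ => by positivity

private theorem Sf_two {h : ℕ} (hh : 1 ≤ h) :
    ∏ p ∈ (2 * h).primeFactors, (1 + 6 / (p : ℝ)) ≤
      4 * ∏ p ∈ h.primeFactors, (1 + 6 / (p : ℝ)) := by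
  have e : (2 * h).primeFactors = insert 2 h.primeFactors := by
    rw [Nat.primeFactors_mul two_ne_zero (by omega), Nat.prime_two.primeFactors,
      Finset.insert_eq]
  have h0 := Sf_pos h
  by_cases h2 : 2 ∈ h.primeFactors
  · rw [e, Finset.insert_eq_of_mem h2]
    linarith
  · rw [e, Finset.prod_insert h2]
    have : (1 + 6 / ((2 : ℕ) : ℝ)) = 4 := by norm_num
    rw [this]

theorem pair_sum : ∃ C : ℝ, 0 < C ∧ ∃ y₀ : ℕ, ∀ y N : ℕ, y₀ ≤ y → y ≤ N →
    ∑ h ∈ Icc 1 y, (pairs (y + 1) h : ℝ) * pairs N (2 * h) ≤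
      C * (y / Real.log y) ^ 2 * (N / (Real.log N) ^ 2) := by
  obtain ⟨C0, hC0, M0, hM⟩ := pairs_le
  refine ⟨8 * C0 ^ 2 * Real.exp 30, by positivity, max M0 2, ?_⟩
  intro y N hy hN
  have hyM : M0 ≤ y := le_trans (le_max_left _ _) hy
  have hy2 : 2 ≤ y := le_trans (le_max_right _ _) hy
  have hy2' : (2 : ℝ) ≤ y := by exact_mod_cast hy2
  have hly : 0 < Real.log y := Real.log_pos (by linarith)
  have hly1 : Real.log y ≤ Real.log ((y + 1 : ℕ) : ℝ) := by
    apply Real.log_le_log (by linarith)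
    push_cast
    linarith
  set A : ℝ := C0 * ((y + 1 : ℕ) : ℝ) / (Real.log ((y + 1 : ℕ) : ℝ)) ^ 2 with hA
  set D : ℝ := C0 * N / (Real.log N) ^ 2 with hD
  have hD0 : 0 ≤ D := by positivity
  have hA0 : 0 ≤ A := by positivity
  have hA1 : A ≤ C0 * (2 * y) / (Real.log y) ^ 2 := by
    rw [hA]
    apply div_le_div₀ (by positivity)
    · apply mul_le_mul_of_nonneg_left _ hC0.le
      push_cast
      linarith
    · positivity
    · exact pow_le_pow_left₀ hly.le hly1 2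
  have hs : ∑ h ∈ Icc 1 y, (pairs (y + 1) h : ℝ) * pairs N (2 * h) ≤
      ∑ h ∈ Icc 1 y, (A * (D * 4)) * (∏ p ∈ h.primeFactors, (1 + 6 / (p : ℝ))) ^ 2 := by
    apply Finset.sum_le_sum
    intro h hh
    rw [Finset.mem_Icc] at hh
    have h1 := hM (y + 1) (by omega) h hh.1
    have h2 := hM N (by omega) (2 * h) (by omega)
    have h3 := Sf_two hh.1
    have h4 : (pairs N (2 * h) : ℝ) ≤ D * (4 * ∏ p ∈ h.primeFactors, (1 + 6 / (p : ℝ))) :=
      h2.trans (mul_le_mul_of_nonneg_left h3 hD0)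
    have h5 := Sf_pos h
    calc (pairs (y + 1) h : ℝ) * pairs N (2 * h)
        ≤ (A * ∏ p ∈ h.primeFactors, (1 + 6 / (p : ℝ))) *
          (D * (4 * ∏ p ∈ h.primeFactors, (1 + 6 / (p : ℝ)))) :=
          mul_le_mul h1 h4 (Nat.cast_nonneg _) (mul_nonneg hA0 h5)
      _ = _ := by ring
  refine hs.trans ?_
  rw [← Finset.mul_sum]
  calc A * (D * 4) * ∑ h ∈ Icc 1 y, (∏ p ∈ h.primeFactors, (1 + 6 / (p : ℝ))) ^ 2
      ≤ A * (D * 4) * (y * Real.exp 30) :=
        mul_le_mul_of_nonneg_left (sum_prod_sq y) (by positivity)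
    _ ≤ (C0 * (2 * y) / (Real.log y) ^ 2) * (D * 4) * (y * Real.exp 30) := by
        apply mul_le_mul_of_nonneg_right _ (by positivity)
        exact mul_le_mul_of_nonneg_right hA1 (by positivity)
    _ = 8 * C0 ^ 2 * Real.exp 30 * (y / Real.log y) ^ 2 * (N / (Real.log N) ^ 2) := by
        rw [hD]
        ring

end Pool.Agent.H.MP_0ec261_nt.SP
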