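import Pool.Agent.H.MP_711652_nt.PairSieve

/-!
# Cauchy-Schwarz and the second moment of the number of representations
-/

namespace Pool.Agent.H.MP_0ec261_nt.SP

open Finset Pool.Agent.H.MP_711652_nt

private theorem Sg_off {K P : Finset ℕ} {y N : ℕ} (hK : ∀ q ∈ K, q.Prime ∧ q ≤ y)
    (hP : ∀ p ∈ P, p.Prime ∧ p < N) {S : Finset ((ℕ × ℕ) × (ℕ × ℕ))}
    (hS : ∀ a ∈ S, a.1.1 ∈ P ∧ a.1.2 ∈ K ∧ a.2.1 ∈ P ∧ a.2.2 ∈ K ∧
      a.1.1 + 2 * a.1.2 = a.2.1 + 2 * a.2.2 ∧ a.1.2 < a.2.2) :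
    S.card ≤ ∑ h ∈ Icc 1 y, pairs (y + 1) h * pairs N (2 * h) := by
  have h1 : S.card ≤ ((Icc 1 y).sigma fun h =>
      ((range (y + 1)).filter fun n => n.Prime ∧ (n + h).Prime) ×ˢ
        ((range N).filter fun n => n.Prime ∧ (n + 2 * h).Prime)).card := by
    refine Finset.card_le_card_of_injOn
      (fun a => (⟨a.2.2 - a.1.2, (a.1.2, a.2.1)⟩ : (_ : ℕ) × (ℕ × ℕ))) ?_ ?_
    · intro a ha
      obtain ⟨g1, g2, g3, g4, g5, g6⟩ := hS a ha
      have hp1 := hP _ g1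
      have hp3 := hP _ g3
      have hk2 := hK _ g2
      have hk4 := hK _ g4
      have e1 : a.1.2 + (a.2.2 - a.1.2) = a.2.2 := by omega
      have e2 : a.2.1 + 2 * (a.2.2 - a.1.2) = a.1.1 := by omega
      simp only [Finset.coe_sigma, Set.mem_sigma_iff, Finset.mem_coe, Finset.mem_Icc,
        Finset.mem_product, Finset.mem_filter, Finset.mem_range]
      refine ⟨⟨by omega, by omega⟩, ⟨by omega, hk2.1, ?_⟩, hp3.2, hp3.1, ?_⟩
      · rw [e1]
        exact hk4.1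
      · rw [e2]
        exact hp1.1
    · intro a ha b hb hab
      obtain ⟨_, _, _, _, g5, g6⟩ := hS a ha
      obtain ⟨_, _, _, _, k5, k6⟩ := hS b hb
      simp only [Sigma.mk.injEq, heq_eq_eq, Prod.mk.injEq] at hab
      obtain ⟨e1, e2, e3⟩ := hab
      refine Prod.ext (Prod.ext ?_ ?_) (Prod.ext ?_ ?_) <;> omega
  refine h1.trans (le_of_eq ?_)
  rw [Finset.card_sigma]
  refine Finset.sum_congr rfl fun h _ => ?_
  rw [Finset.card_product]
  rfl

theorem second {K P : Finset ℕ} {y N : ℕ} (hK : ∀ q ∈ K, q.Prime ∧ q ≤ y)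
    (hP : ∀ p ∈ P, p.Prime ∧ p < N) {R : Finset (ℕ × ℕ)} (hR : R ⊆ P ×ˢ K) :
    (R.card : ℝ) ^ 2 ≤ (R.image fun x => x.1 + 2 * x.2).card *
      (P.card * K.card + 2 * ∑ h ∈ Icc 1 y, (pairs (y + 1) h : ℝ) * pairs N (2 * h)) := by
  classical
  set v : ℕ × ℕ → ℕ := fun x => x.1 + 2 * x.2 with hv
  have hRm : ∀ x ∈ R, x.1 ∈ P ∧ x.2 ∈ K := fun x hx => Finset.mem_product.1 (hR hx)
  -- pairs of elements of `R` with the same value
  set Q : Finset ((ℕ × ℕ) × (ℕ × ℕ)) := (R ×ˢ R).filter fun a => v a.1 = v a.2 with hQ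
  have hQc : Q.card = ∑ n ∈ R.image v, (R.filter fun x => v x = n).card ^ 2 := by
    rw [Finset.card_eq_sum_card_fiberwise (f := fun a => v a.1) (t := R.image v)]
    · refine Finset.sum_congr rfl fun n _ => ?_
      rw [sq, ← Finset.card_product]
      congr 1
      ext a
      simp only [hQ, Finset.mem_filter, Finset.mem_product]
      constructor
      · rintro ⟨⟨⟨g1, g2⟩, g3⟩, g4⟩
        exact ⟨⟨g1, g4⟩, g2, g3 ▸ g4⟩
      · rintro ⟨⟨g1, g2⟩, g3, g4⟩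
        exact ⟨⟨⟨g1, g3⟩, g2.trans g4.symm⟩, g2⟩
    · intro a ha
      have ha' := Finset.mem_filter.1 (Finset.mem_coe.1 ha)
      exact Finset.mem_coe.2 (Finset.mem_image_of_mem _ (Finset.mem_product.1 ha'.1).1)
  have hcs : R.card ^ 2 ≤ (R.image v).card * Q.card := by
    rw [hQc]
    conv_lhs => rw [Finset.card_eq_sum_card_image v R]
    exact sq_sum_le_card_mul_sum_sq
  have hmem : ∀ a ∈ Q, a.1.1 ∈ P ∧ a.1.2 ∈ K ∧ a.2.1 ∈ P ∧ a.2.2 ∈ K ∧
      a.1.1 + 2 * a.1.2 = a.2.1 + 2 * a.2.2 := by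
    intro a ha
    have ha' := Finset.mem_filter.1 ha
    have hb := Finset.mem_product.1 ha'.1
    exact ⟨(hRm _ hb.1).1, (hRm _ hb.1).2, (hRm _ hb.2).1, (hRm _ hb.2).2, ha'.2⟩
  have hD : (Q.filter fun a => a.1.2 = a.2.2).card ≤ P.card * K.card := by
    rw [← Finset.card_product]
    refine Finset.card_le_card_of_injOn (fun a => a.1) ?_ ?_
    · intro a ha
      have ha' := hmem a (Finset.mem_filter.1 (Finset.mem_coe.1 ha)).1
      exact Finset.mem_coe.2 (Finset.mem_product.2 ⟨ha'.1, ha'.2.1⟩)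
    · intro a ha b hb hab
      have ha1 := (Finset.mem_filter.1 (Finset.mem_coe.1 ha)).2
      have hb1 := (Finset.mem_filter.1 (Finset.mem_coe.1 hb)).2
      obtain ⟨_, _, _, _, ha2⟩ := hmem a (Finset.mem_filter.1 (Finset.mem_coe.1 ha)).1
      obtain ⟨_, _, _, _, hb2⟩ := hmem b (Finset.mem_filter.1 (Finset.mem_coe.1 hb)).1
      have hab' : a.1 = b.1 := hab
      have e1 : a.1.1 = b.1.1 := by rw [hab']
      have e2 : a.1.2 = b.1.2 := by rw [hab']
      refine Prod.ext hab' (Prod.ext ?_ ?_) <;> omega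
  have hL : (Q.filter fun a => a.1.2 < a.2.2).card ≤
      ∑ h ∈ Icc 1 y, pairs (y + 1) h * pairs N (2 * h) := by
    refine Sg_off hK hP fun a ha => ?_
    obtain ⟨g1, g2, g3, g4, g5⟩ := hmem a (Finset.mem_filter.1 ha).1
    exact ⟨g1, g2, g3, g4, g5, (Finset.mem_filter.1 ha).2⟩
  have hG : (Q.filter fun a => a.2.2 < a.1.2).card ≤
      ∑ h ∈ Icc 1 y, pairs (y + 1) h * pairs N (2 * h) := by
    rw [← Finset.card_image_of_injective _ Prod.swap_injective]
    refine Sg_off hK hP fun b hb => ?_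
    obtain ⟨a, ha, rfl⟩ := Finset.mem_image.1 hb
    obtain ⟨g1, g2, g3, g4, g5⟩ := hmem a (Finset.mem_filter.1 ha).1
    exact ⟨g3, g4, g1, g2, g5.symm, (Finset.mem_filter.1 ha).2⟩
  have hQle : Q.card ≤ (Q.filter fun a => a.1.2 = a.2.2).card +
      ((Q.filter fun a => a.1.2 < a.2.2).card + (Q.filter fun a => a.2.2 < a.1.2).card) := by
    have hsub : Q ⊆ (Q.filter fun a => a.1.2 = a.2.2) ∪
        ((Q.filter fun a => a.1.2 < a.2.2) ∪ (Q.filter fun a => a.2.2 < a.1.2)) := by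
      intro a ha
      simp only [Finset.mem_union, Finset.mem_filter]
      rcases lt_trichotomy a.1.2 a.2.2 with h | h | h
      · exact Or.inr (Or.inl ⟨ha, h⟩)
      · exact Or.inl ⟨ha, h⟩
      · exact Or.inr (Or.inr ⟨ha, h⟩)
    refine (Finset.card_le_card hsub).trans ((Finset.card_union_le _ _).trans ?_)
    exact Nat.add_le_add_left (Finset.card_union_le _ _) _
  have hQ2 : Q.card ≤ P.card * K.card +
      2 * ∑ h ∈ Icc 1 y, pairs (y + 1) h * pairs N (2 * h) := by omega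
  have hfin : R.card ^ 2 ≤ (R.image v).card * (P.card * K.card +
      2 * ∑ h ∈ Icc 1 y, pairs (y + 1) h * pairs N (2 * h)) :=
    hcs.trans (Nat.mul_le_mul_left _ hQ2)
  exact_mod_cast hfin

end Pool.Agent.H.MP_0ec261_nt.SP
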